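import Mathlib

/-!
# The exceptional proportion for a forest of CM fields (helper301)
-/

set_option autoImplicit false

namespace Pool.Agent.Run7.h301.TW

open Module NumberField

/-- The largest probability of a value of a sum of `t` independent signs. -/
noncomputable def signProb (t : ℕ) : ℝ := (t.choose (t / 2) : ℝ) / 2 ^ t

/-- Half of the degree of a number field. -/
noncomputable def half (K : Type) [Field K] [NumberField K] : ℕ := finrank ℚ K / 2

open Classical in
/-- Half of the degree of the field `F v` that belongs to the largest `v` below `u`, and `0` if `u`
is minimal. -/
noncomputable def below {V : Type} [Fintype V] [PartialOrder V] (F : V → Type) [∀ v, Field (F v)]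
    [∀ v, NumberField (F v)] (u : V) : ℕ :=
  (Finset.univ.filter fun v => v < u).sup fun v => half (F v)

open Classical in
/-- The sum over the fields `F u` contained in the fields `F (w i)` of `signProb t ^ (d - j)`, where
`t = [F (w i) : F u]`, `2 d` is the difference of the degrees of `F u` and of the field below it, and
`j` is the number of the indices `i' < i` such that `F u` is contained in `F (w i')`. -/
noncomputable def exceptional {V : Type} [Fintype V] [PartialOrder V] (F : V → Type)
    [∀ v, Field (F v)] [∀ v, NumberField (F v)] {r : ℕ} (w : Fin r → V) : ℝ :=
  ∑ i, ∑ u : V, if u ≤ w i then signProb (half (F (w i)) / half (F u)) ^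
    (half (F u) - below F u - (Finset.univ.filter fun i' => i' < i ∧ u ≤ w i').card) else 0

end Pool.Agent.Run7.h301.TW
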