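import Mathlib
import Pool.Agent.Run7.h142.TF.Defs

/-!
# Weil numbers in a forest of CM fields: definitions (helper301)
-/

set_option autoImplicit false

namespace Pool.Agent.Run7.h301.TW

open NumberField Pool.Agent.Run7.h142.TF

/-- Embeddings of fields `F u → F v` for `u ≤ v`. -/
abbrev Inclusions {V : Type} [PartialOrder V] (F : V → Type) [∀ v, Field (F v)] : Type :=
  ∀ u v : V, u ≤ v → (F u →+* F v)

/-- The embeddings are compatible with each other. -/
def Compatible {V : Type} [PartialOrder V] {F : V → Type} [∀ v, Field (F v)]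
    (inc : Inclusions F) : Prop :=
  ∀ (u v w : V) (h : u ≤ v) (h' : v ≤ w), (inc v w h').comp (inc u v h) = inc u w (h.trans h')

/-- Let `V` be partially ordered, let `F v` be fields, and `inc u v : F u → F v` embeddings for
`u ≤ v`. The embeddings `x` of `F v` and `y` of `F w` in a field agree on `F u` if `u ≤ v`, `u ≤ w`
and they have the same restriction to `F u`. -/
def Agree {V : Type} [PartialOrder V] {F : V → Type} [∀ v, Field (F v)]
    (inc : Inclusions F) {C : Type} [Field C] {v w : V} (x : F v →+* C)
    (y : F w →+* C) (u : V) : Prop :=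
  ∃ (h : u ≤ v) (h' : u ≤ w), x.comp (inc u v h) = y.comp (inc u w h')

/-- A forest of fields on which the automorphisms of `ℂ` act as freely as possible: the elements of
`V` below an element form a chain, the embeddings `inc` are compatible; if the complex embeddings
`x` of `F v` and `y` of `F w` agree on no field `F u`, and `x` and the complex conjugate of `y`
neither, then some automorphism fixes `x` and maps `y` to its complex conjugate; if `x` agrees with
`y` on some field `F u`, and agrees with `y'` on the same fields as with `y`, then some automorphism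
fixes `x` and maps `y` to `y'`. -/
structure FreeForest {V : Type} [PartialOrder V] (F : V → Type) [∀ v, Field (F v)]
    (inc : Inclusions F) : Prop where
  chain : ∀ u v w : V, u ≤ w → v ≤ w → u ≤ v ∨ v ≤ u
  comp : Compatible inc
  flip : ∀ (v w : V) (x : F v →+* ℂ) (y : F w →+* ℂ), (∀ u, ¬ Agree inc x y u) →
    (∀ u, ¬ Agree inc x (ComplexEmbedding.conjugate y) u) →
      ∃ σ : ℂ ≃+* ℂ, (σ : ℂ →+* ℂ).comp x = x ∧
        (σ : ℂ →+* ℂ).comp y = ComplexEmbedding.conjugate y
  move : ∀ (v w : V) (x : F v →+* ℂ) (y y' : F w →+* ℂ), (∃ u, Agree inc x y u) →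
    (∀ u, Agree inc x y u ↔ Agree inc x y' u) →
      ∃ σ : ℂ ≃+* ℂ, (σ : ℂ →+* ℂ).comp x = x ∧ (σ : ℂ →+* ℂ).comp y = y'

open Classical in
/-- The slope deviation of the norm of `x : F w` to `F u`, as a function of the embeddings `τ` of
`F v` in the algebraic closure of `ℚ_p`, for `u ≤ v` and `u ≤ w`: the sum of the slope deviations of
`x` at the embeddings `ψ` of `F w` that agree with `τ` on `F u`. -/
noncomputable def normDev (p a : ℕ) [Fact p.Prime] {V : Type} [PartialOrder V] {F : V → Type}
    [∀ v, Field (F v)] [∀ v, NumberField (F v)] (inc : Inclusions F) {w : V}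
    (x : F w) (u v : V) : (F v →+* PadicAlgCl p) → ℝ :=
  fun τ => ∑ ψ : F w →+* PadicAlgCl p, if Agree inc τ ψ u then dev p a x ψ else 0

/-- `π i` are Weil numbers for `p ^ a` in the CM fields `F (w i)`, and for each `i₀` the slope
deviations of the norms of all the `π i` to all the fields `F u` with `u ≤ w i₀`, `u ≤ w i` are
linearly independent over `ℚ` (as functions of the embeddings of `F (w i₀)`). -/
structure IndependentNorms (p a : ℕ) [Fact p.Prime] {V : Type} [PartialOrder V] {F : V → Type}
    [∀ v, Field (F v)] [∀ v, NumberField (F v)] [∀ v, IsCMField (F v)]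
    (inc : Inclusions F) {I : Type} (w : I → V) (π : ∀ i, F (w i)) : Prop where
  weil : ∀ i, π i * IsCMField.complexConj (F (w i)) (π i) = (p : F (w i)) ^ a
  indep : ∀ i₀, LinearIndependent ℚ fun x : {x : I × V // x.2 ≤ w i₀ ∧ x.2 ≤ w x.1} =>
    normDev p a inc (π x.1.1) x.1.2 (w i₀)

end Pool.Agent.Run7.h301.TW
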