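import Mathlib
import Pool.Agent.TH170.CM.Weighted

/-!
# Sign vectors whose block sums belong to a subspace (helper301)
-/

set_option autoImplicit false
set_option linter.unusedSectionVars false

namespace Pool.Agent.Run7.h301.TW

open Finset Module Pool.Agent.TH170.CM

/-- Coordinates that determine the elements of a subspace. -/
theorem exists_coords {Y : Type*} [Fintype Y] (d : ℕ) : ∀ (U : Submodule ℚ (Y → ℚ)),
    finrank ℚ U ≤ d → ∃ S : Finset Y, S.card ≤ d ∧ ∀ u ∈ U, (∀ y ∈ S, u y = 0) → u = 0 := by
  classical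
  induction d with
  | zero =>
    intro U hU
    refine ⟨∅, le_rfl, fun u hu _ => ?_⟩
    have h1 : U = ⊥ := Submodule.finrank_eq_zero.1 (Nat.le_zero.1 hU)
    rw [h1] at hu
    exact (Submodule.mem_bot ℚ).1 hu
  | succ d ih =>
    intro U hU
    by_cases h0 : U = ⊥
    · refine ⟨∅, Nat.zero_le _, fun u hu _ => ?_⟩
      rw [h0] at hu
      exact (Submodule.mem_bot ℚ).1 hu
    · obtain ⟨u, hu, hu0⟩ := Submodule.exists_mem_ne_zero_of_ne_bot h0
      obtain ⟨x, hx⟩ : ∃ x, u x ≠ 0 := by
        by_contra hcon
        push Not at hcon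
        exact hu0 (funext hcon)
      let U' : Submodule ℚ (Y → ℚ) := U ⊓ LinearMap.ker (LinearMap.proj x : (Y → ℚ) →ₗ[ℚ] ℚ)
      have hlt : U' < U := by
        refine lt_of_le_of_ne inf_le_left fun h => ?_
        have h1 : u ∈ U' := h ▸ hu
        exact hx h1.2
      have hU' : finrank ℚ U' ≤ d := by
        have := Submodule.finrank_lt_finrank_of_lt hlt
        omega
      obtain ⟨S, hS1, hS2⟩ := ih U' hU'
      refine ⟨insert x S, (Finset.card_insert_le _ _).trans (Nat.succ_le_succ hS1),
        fun u hu h => ?_⟩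
      refine hS2 u ⟨hu, ?_⟩ fun y hy => h y (mem_insert_of_mem hy)
      exact h x (mem_insert_self _ _)

/-- The families of sign vectors in blocks of `t` elements whose weighted block sums belong to a
subspace of dimension at most `d`. -/
theorem card_blocks {Y : Type*} [Fintype Y] [DecidableEq Y] (N : Y → Type*)
    [∀ y, Fintype (N y)] [∀ y, DecidableEq (N y)] {t : ℕ} (hN : ∀ y, Fintype.card (N y) = t)
    (M : ∀ y, N y → ℤ) (hM : ∀ y x, M y x ≠ 0) (U : Submodule ℚ (Y → ℚ)) {d : ℕ}
    (hU : finrank ℚ U ≤ d) (S : Finset (∀ y, N y → Bool))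
    (hS : ∀ v ∈ S, (fun y => ((wsum (M y) (v y) : ℤ) : ℚ)) ∈ U) :
    (S.card : ℝ) ≤ ((t.choose (t / 2) : ℝ) / 2 ^ t) ^ (Fintype.card Y - d) *
      (2 ^ t) ^ Fintype.card Y := by
  have hC : (t.choose (t / 2) : ℝ) / 2 ^ t ≤ 1 := by
    rw [div_le_one (by positivity)]
    exact_mod_cast Nat.choose_le_two_pow t (t / 2)
  have hC0 : (0 : ℝ) ≤ (t.choose (t / 2) : ℝ) / 2 ^ t := by positivity
  have huniv : (S.card : ℝ) ≤ (2 ^ t) ^ Fintype.card Y := by
    have h1 : S.card ≤ (2 ^ t) ^ Fintype.card Y := by
      refine (Finset.card_le_univ S).trans (le_of_eq ?_)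
      rw [Fintype.card_pi, Finset.prod_congr rfl (g := fun _ => 2 ^ t), Finset.prod_const,
        Finset.card_univ]
      intro y _
      rw [Fintype.card_fun, Fintype.card_bool, hN]
    exact_mod_cast h1
  by_cases hd : d ≤ Fintype.card Y
  swap
  · have h1 : Fintype.card Y - d = 0 := by omega
    rw [h1, pow_zero, one_mul]
    exact huniv
  obtain ⟨T, hT1, hT2⟩ := exists_coords d U hU
  let R : Type _ := {y : Y // y ∈ T}
  let res : (∀ y, N y → Bool) → (∀ y : R, N y.1 → Bool) := fun v y => v y.1
  have h1 : ∀ w ∈ (univ : Finset (∀ y : R, N y.1 → Bool)),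
      (S.filter (fun v => res v = w)).card ≤ (t.choose (t / 2)) ^ (Fintype.card Y - T.card) := by
    intro w _
    rcases (S.filter (fun v => res v = w)).eq_empty_or_nonempty with h2 | ⟨v0, hv0⟩
    · rw [h2, Finset.card_empty]
      exact Nat.zero_le _
    rw [Finset.mem_filter] at hv0
    let P : Finset (∀ y, N y → Bool) := Fintype.piFinset (fun y =>
      if y ∈ T then {v0 y} else
        univ.filter (fun b : N y → Bool => wsum (M y) b = wsum (M y) (v0 y)))
    have hP : S.filter (fun v => res v = w) ⊆ P := by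
      intro v hv
      rw [Finset.mem_filter] at hv
      rw [Fintype.mem_piFinset]
      have hres : ∀ y ∈ T, v y = v0 y := by
        intro y hy
        exact congrFun (hv.2.trans hv0.2.symm) ⟨y, hy⟩
      intro y
      by_cases hy : y ∈ T
      · rw [if_pos hy, Finset.mem_singleton]
        exact hres y hy
      · rw [if_neg hy, Finset.mem_filter]
        refine ⟨Finset.mem_univ _, ?_⟩
        have h3 := U.sub_mem (hS v hv.1) (hS v0 hv0.1)
        have h4 := hT2 _ h3 fun z hz => by
          rw [Pi.sub_apply, hres z hz, sub_self]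
        have h5 := congrFun h4 y
        rw [Pi.sub_apply, Pi.zero_apply, sub_eq_zero] at h5
        exact_mod_cast h5
    refine (Finset.card_le_card hP).trans ?_
    rw [Fintype.card_piFinset]
    have h4 : ∀ y : Y, (if y ∈ T then {v0 y} else
        univ.filter (fun b : N y → Bool => wsum (M y) b = wsum (M y) (v0 y))).card ≤
        if y ∈ T then 1 else t.choose (t / 2) := by
      intro y
      by_cases hy : y ∈ T
      · rw [if_pos hy, if_pos hy, Finset.card_singleton]
      · rw [if_neg hy, if_neg hy, ← hN y]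
        exact card_wsum_eq _ (hM y) _
    refine (Finset.prod_le_prod' fun y _ => h4 y).trans (le_of_eq ?_)
    rw [Finset.prod_ite, Finset.prod_const_one, one_mul, Finset.prod_const]
    congr 1
    rw [← Finset.card_compl]
    congr 1
    ext y
    simp
  have h2 : S.card ≤ (t.choose (t / 2)) ^ (Fintype.card Y - T.card) *
      (univ : Finset (∀ y : R, N y.1 → Bool)).card :=
    Finset.card_le_mul_card_image_of_maps_to (f := res) (fun v _ => Finset.mem_univ _) _ h1
  have h3 : (univ : Finset (∀ y : R, N y.1 → Bool)).card = (2 ^ t) ^ T.card := by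
    rw [Finset.card_univ, Fintype.card_pi, Finset.prod_congr rfl (g := fun _ => 2 ^ t),
      Finset.prod_const, Finset.card_univ, Fintype.card_coe]
    intro y _
    rw [Fintype.card_fun, Fintype.card_bool, hN]
  rw [h3] at h2
  have hTY : T.card ≤ Fintype.card Y := Finset.card_le_univ T
  calc (S.card : ℝ) ≤ (t.choose (t / 2) : ℝ) ^ (Fintype.card Y - T.card) * (2 ^ t) ^ T.card := by
        exact_mod_cast h2
    _ = ((t.choose (t / 2) : ℝ) / 2 ^ t) ^ (Fintype.card Y - T.card) *
          (2 ^ t) ^ Fintype.card Y := by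
        have h5 : ((2 : ℝ) ^ t) ^ Fintype.card Y =
            (2 ^ t) ^ (Fintype.card Y - T.card) * (2 ^ t) ^ T.card := by
          rw [← pow_add]
          congr 1
          omega
        rw [h5, div_pow]
        field_simp
    _ ≤ _ := by
        refine mul_le_mul_of_nonneg_right ?_ (by positivity)
        exact pow_le_pow_of_le_one hC0 hC (by omega)

end Pool.Agent.Run7.h301.TW
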