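import Mathlib
import Pool.Agent.Run7.h142.JT.Count
import Pool.Agent.Run7.h301.TW.Blocks
import Pool.Agent.Run7.h142.JT.Min

/-!
# CM types for which the norm to a subfield belongs to a subspace (helper301)
-/

set_option autoImplicit false
set_option linter.unusedSectionVars false

namespace Pool.Agent.Run7.h301.TW

open Finset Module NumberField Pool.Agent.TH170.CM Pool.Agent.H204R3.CM Pool.Agent.Run7.h142.JT

/-- The number of the extensions of an embedding. -/
theorem card_ext {K E : Type} [Field K] [NumberField K] [Field E] [NumberField E] (i : K →+* E)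
    (y : K →+* ℂ) : Nat.card {x : E →+* ℂ // x.comp i = y} * finrank ℚ K = finrank ℚ E := by
  let _ : Algebra K E := i.toAlgebra
  let _ : Algebra K ℂ := y.toAlgebra
  have _ : IsScalarTower ℚ K E := inferInstance
  have _ : FiniteDimensional K E := FiniteDimensional.right ℚ K E
  have h1 : Nat.card {x : E →+* ℂ // x.comp i = y} = finrank K E := by
    have h2 : Fintype.card (E →ₐ[K] ℂ) = finrank K E := AlgHom.card K E ℂ
    rw [← h2, ← Nat.card_eq_fintype_card]
    refine Nat.card_congr
      { toFun := fun x => { x.1 with commutes' := fun r => RingHom.congr_fun x.2 r }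
        invFun := fun φ => ⟨φ.toRingHom, RingHom.ext fun r => φ.commutes r⟩
        left_inv := fun x => by ext; rfl
        right_inv := fun φ => by ext; rfl }
  rw [h1, mul_comm]
  exact Module.finrank_mul_finrank ℚ K E

open Classical in
/-- The norm of the weighted sign function. -/
noncomputable def tnorm {K E : Type} [Field K] [Field E] [NumberField E] (i : K →+* E)
    (M : (E →+* ℂ) → ℤ) (Φ : Set (E →+* ℂ)) : (K →+* ℂ) → ℚ :=
  fun y => ∑ x : E →+* ℂ, if x.comp i = y then (M x : ℚ) * sgnF Φ x else 0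

open Classical in
/-- The CM types whose norms belong to `U`. -/
noncomputable def typesN {K E : Type} [Field K] [Field E] [NumberField E] (i : K →+* E)
    (M : (E →+* ℂ) → ℤ) (U : Submodule ℚ ((K →+* ℂ) → ℚ)) : Finset (Set (E →+* ℂ)) :=
  (types E).filter fun Φ => tnorm i M Φ ∈ U

theorem card_typesN {K E : Type} [Field K] [NumberField K] [IsCMField K] [Field E] [NumberField E]
    [IsCMField E] (i : K →+* E) {M : (E →+* ℂ) → ℤ} (hM : ∀ x, M x ≠ 0) {h g t : ℕ}
    (hh : finrank ℚ K = 2 * h) (hg : finrank ℚ E = 2 * g) (ht : g = t * h)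
    (U : Submodule ℚ ((K →+* ℂ) → ℚ)) {d : ℕ} (hU : finrank ℚ U ≤ d) :
    ((typesN i M U).card : ℝ) ≤ ((t.choose (t / 2) : ℝ) / 2 ^ t) ^ (h - d) * 2 ^ g := by
  classical
  let c : (K →+* ℂ) → (K →+* ℂ) := fun y => ComplexEmbedding.conjugate y
  obtain ⟨T, hT⟩ := Pool.Agent.TH170.MF.exists_transversal (c := c) conj_conj' conj_ne
  have hTc : Fintype.card T = h := by
    have h1 := Pool.Agent.TH170.MF.card_transversal (c := c) conj_conj' hT
    rw [Embeddings.card, hh] at h1
    rw [Fintype.card_coe]
    omega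
  let N : T → Type := fun y => {x : E →+* ℂ // x.comp i = y.1}
  have hN : ∀ y : T, Fintype.card (N y) = t := by
    intro y
    have h1 := card_ext i y.1
    have h0 : 0 < h := by
      have := finrank_pos (R := ℚ) (M := K)
      omega
    rw [hh, hg, ht, Nat.card_eq_fintype_card] at h1
    have h2 : Fintype.card (N y) * h = t * h := by
      have h3 : 2 * (Fintype.card (N y) * h) = 2 * (t * h) := by
        calc _ = Fintype.card (N y) * (2 * h) := by ring
          _ = _ := h1
      omega
    exact Nat.eq_of_mul_eq_mul_right h0 h2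
  let rs : ((K →+* ℂ) → ℚ) →ₗ[ℚ] (T → ℚ) := LinearMap.funLeft ℚ ℚ (Subtype.val : T → (K →+* ℂ))
  let v : Set (E →+* ℂ) → ∀ y, N y → Bool := fun Φ y x => decide (x.1 ∈ Φ)
  let S : Finset (∀ y, N y → Bool) := (typesN i M U).image v
  have hval : ∀ Φ, (fun y : T => ((wsum (fun x : N y => M x.1) (v Φ y) : ℤ) : ℚ)) =
      rs (tnorm i M Φ) := by
    intro Φ
    funext y
    change ((wsum (fun x : N y => M x.1) (v Φ y) : ℤ) : ℚ) = tnorm i M Φ y.1
    unfold tnorm wsum
    rw [← Finset.sum_filter, Finset.sum_subtype (p := fun x : E →+* ℂ => x.comp i = y.1) _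
      (fun x => by simp)]
    push_cast
    refine Finset.sum_congr rfl fun x _ => ?_
    simp only [v, sgnF]
    by_cases hx : x.1 ∈ Φ
    · simp [hx]
    · simp [hx]
  have h1 := card_blocks N hN (fun y x => M x.1) (fun y x => hM x.1) (U.map rs) (d := d)
    ((Submodule.finrank_map_le rs U).trans hU) S (by
      intro w hw
      obtain ⟨Φ, hΦ, rfl⟩ := Finset.mem_image.1 hw
      rw [hval]
      exact Submodule.mem_map_of_mem (Finset.mem_filter.1 hΦ).2)
  have hinj : Set.InjOn v (typesN i M U) := by
    intro Φ hΦ Ψ hΨ heq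
    have hΦ1 : IsCMType Φ := by
      have := (Finset.mem_filter.1 (Finset.mem_coe.1 hΦ)).1
      simpa [types] using this
    have hΨ1 : IsCMType Ψ := by
      have := (Finset.mem_filter.1 (Finset.mem_coe.1 hΨ)).1
      simpa [types] using this
    have key : ∀ x : E →+* ℂ, x.comp i ∈ T → (x ∈ Φ ↔ x ∈ Ψ) := by
      intro x hx
      have h2 : decide (x ∈ Φ) = decide (x ∈ Ψ) := congrFun (congrFun heq ⟨x.comp i, hx⟩) ⟨x, rfl⟩
      simpa using h2
    ext x
    by_cases hx : x.comp i ∈ T
    · exact key x hx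
    · have h2 : (ComplexEmbedding.conjugate x).comp i ∈ T := by
        by_contra hcon
        exact hx ((hT _).2 hcon)
      have h3 := key _ h2
      rw [hΦ1 x, hΨ1 x, h3]
  have hcard : S.card = (typesN i M U).card := Finset.card_image_of_injOn hinj
  rw [hcard, hTc] at h1
  refine h1.trans (le_of_eq ?_)
  rw [ht, pow_mul]

end Pool.Agent.Run7.h301.TW
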