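import Mathlib
import Pool.Agent.TH170.MF.Min
import Pool.Agent.Run7.h301.TW.Defs
import Pool.Agent.Run7.h301.TW.BoundDefs
import Pool.Agent.Run7.h301.TW.TypeCount

/-!
# Families of CM types with dependent norms (helper301)
-/

set_option autoImplicit false
set_option linter.unusedSectionVars false

namespace Pool.Agent.Run7.h301.TW

open Finset Module NumberField Pool.Agent.TH170.CM Pool.Agent.H204R3.CM Pool.Agent.Run7.h142.JT

variable {V : Type} [Fintype V] [PartialOrder V] {F : V → Type}
  [∀ v, Field (F v)] [∀ v, NumberField (F v)] [∀ v, IsCMField (F v)]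
  {inc : Inclusions F}

/-- The odd functions of the embeddings. -/
def oddFun (K : Type) [Field K] : Submodule ℚ ((K →+* ℂ) → ℚ) where
  carrier := {f | ∀ x, f (ComplexEmbedding.conjugate x) = - f x}
  add_mem' := by
    intro f g hf hg x
    rw [Pi.add_apply, hf, hg, Pi.add_apply]
    ring
  zero_mem' := by
    intro x
    simp
  smul_mem' := by
    intro c f hf x
    rw [Pi.smul_apply, hf, Pi.smul_apply, smul_neg]

theorem finrank_oddFun (K : Type) [Field K] [NumberField K] [IsCMField K] :
    finrank ℚ (oddFun K) ≤ half K := by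
  classical
  obtain ⟨T, hT⟩ := Pool.Agent.TH170.MF.exists_transversal
    (c := fun φ : K →+* ℂ => ComplexEmbedding.conjugate φ) conj_conj' conj_ne
  have hcard := Pool.Agent.TH170.MF.card_transversal
    (c := fun φ : K →+* ℂ => ComplexEmbedding.conjugate φ) conj_conj' hT
  refine Pool.Agent.TH170.MF.finrank_le_of_allOdd
    (c := fun φ : K →+* ℂ => ComplexEmbedding.conjugate φ) conj_conj' conj_ne
    (S := oddFun K) (fun s hs x => hs x) (g := half K) ?_
  have h1 : Fintype.card (K →+* ℂ) = finrank ℚ K := Embeddings.card K ℂ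
  unfold half
  omega

/-- The functions of the embeddings of `F u` that come from the embeddings of the smaller field. -/
def pb (inc : Inclusions F) {v u : V} (h : v ≤ u) :
    ((F v →+* ℂ) → ℚ) →ₗ[ℚ] ((F u →+* ℂ) → ℚ) :=
  LinearMap.funLeft ℚ ℚ fun x => x.comp (inc v u h)

/-- The odd functions that come from smaller fields. -/
def lower (inc : Inclusions F) (u : V) : Submodule ℚ ((F u →+* ℂ) → ℚ) :=
  ⨆ v : {v : V // v < u}, (oddFun (F v.1)).map (pb inc v.2.le)

theorem conj_comp' {K E : Type} [Field K] [Field E] (x : E →+* ℂ) (i : K →+* E) :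
    (ComplexEmbedding.conjugate x).comp i = ComplexEmbedding.conjugate (x.comp i) := by
  ext a
  rfl

theorem finrank_lower (hchain : ∀ u v w : V, u ≤ w → v ≤ w → u ≤ v ∨ v ≤ u)
    (hcomp : ∀ (u v w : V) (h : u ≤ v) (h' : v ≤ w), (inc v w h').comp (inc u v h) =
      inc u w (h.trans h')) (u : V) : finrank ℚ (lower inc u) ≤ below F u := by
  classical
  rcases (univ.filter fun v : V => v < u).eq_empty_or_nonempty with he | hne
  · have h1 : lower inc u = ⊥ := by
      refine le_bot_iff.1 (iSup_le fun v => ?_)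
      have h2 : v.1 ∈ (univ.filter fun v : V => v < u) := by simp [v.2]
      rw [he] at h2
      simp at h2
    rw [h1, finrank_bot]
    exact Nat.zero_le _
  · obtain ⟨m, hm⟩ := (univ.filter fun v : V => v < u).exists_maximal hne
    have hmu : m < u := by simpa using hm.prop
    have h1 : lower inc u ≤ (oddFun (F m)).map (pb inc hmu.le) := by
      refine iSup_le fun v => ?_
      have hvm : v.1 ≤ m := by
        rcases hchain v.1 m u v.2.le hmu.le with h | h
        · exact h
        · exact hm.le_of_ge (by simp [v.2]) h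
      rintro f ⟨f', hf', rfl⟩
      refine ⟨pb inc hvm f', ?_, ?_⟩
      · intro x
        change f' ((ComplexEmbedding.conjugate x).comp _) = - f' (x.comp _)
        rw [conj_comp']
        exact hf' _
      · funext x
        change f' ((x.comp (inc m u hmu.le)).comp (inc v.1 m hvm)) = f' (x.comp _)
        rw [RingHom.comp_assoc, hcomp v.1 m u hvm hmu.le]
    calc finrank ℚ (lower inc u) ≤ finrank ℚ ((oddFun (F m)).map (pb inc hmu.le)) :=
          Submodule.finrank_mono h1
      _ ≤ finrank ℚ (oddFun (F m)) := Submodule.finrank_map_le _ _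
      _ ≤ half (F m) := finrank_oddFun (F m)
      _ ≤ below F u := Finset.le_sup (f := fun v => half (F v)) (by simp [hmu])

variable {r : ℕ} {w : Fin r → V}

/-- The space spanned by the norms to `F u` of the signs of the types with smaller index and the
functions from smaller fields. -/
noncomputable def prev (inc : Inclusions F) (M : ∀ i, (F (w i) →+* ℂ) → ℤ)
    (i : Fin r) (u : V) (Φ : ∀ i, Set (F (w i) →+* ℂ)) : Submodule ℚ ((F u →+* ℂ) → ℚ) :=
  lower inc u ⊔ Submodule.span ℚ (Set.range fun i' : {i' : Fin r // i' < i ∧ u ≤ w i'} =>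
    tnorm (inc u (w i'.1) i'.2.2) (M i'.1) (Φ i'.1))

theorem finrank_prev (hchain : ∀ u v w : V, u ≤ w → v ≤ w → u ≤ v ∨ v ≤ u)
    (hcomp : ∀ (u v w : V) (h : u ≤ v) (h' : v ≤ w), (inc v w h').comp (inc u v h) =
      inc u w (h.trans h')) (M : ∀ i, (F (w i) →+* ℂ) → ℤ) (i : Fin r) (u : V)
    (Φ : ∀ i, Set (F (w i) →+* ℂ)) [DecidablePred fun i' : Fin r => i' < i ∧ u ≤ w i'] :
    finrank ℚ (prev inc M i u Φ) ≤ below F u +
      (Finset.univ.filter fun i' => i' < i ∧ u ≤ w i').card := by
  refine (Submodule.finrank_add_le_finrank_add_finrank _ _).trans ?_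
  refine Nat.add_le_add (finrank_lower hchain hcomp u) ?_
  have h1 := finrank_range_le_card (R := ℚ)
    (fun i' : {i' : Fin r // i' < i ∧ u ≤ w i'} => tnorm (inc u (w i'.1) i'.2.2) (M i'.1) (Φ i'.1))
  rwa [Fintype.card_subtype] at h1

open Classical in
/-- The families of types in which the norm to `F u` of the sign of the type with index `i` is
dependent on the previous ones. -/
noncomputable def badAt (inc : Inclusions F) (M : ∀ i, (F (w i) →+* ℂ) → ℤ)
    (i : Fin r) (u : V) (h : u ≤ w i) : Finset (∀ i, Set (F (w i) →+* ℂ)) :=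
  (Fintype.piFinset fun i => types (F (w i))).filter fun Φ =>
    tnorm (inc u (w i) h) (M i) (Φ i) ∈ prev inc M i u Φ

theorem half_spec (K : Type) [Field K] [NumberField K] [IsCMField K] :
    finrank ℚ K = 2 * half K := by
  classical
  obtain ⟨T, hT⟩ := Pool.Agent.TH170.MF.exists_transversal
    (c := fun φ : K →+* ℂ => ComplexEmbedding.conjugate φ) conj_conj' conj_ne
  have hcard := Pool.Agent.TH170.MF.card_transversal
    (c := fun φ : K →+* ℂ => ComplexEmbedding.conjugate φ) conj_conj' hT
  have h1 : Fintype.card (K →+* ℂ) = finrank ℚ K := Embeddings.card K ℂ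
  unfold half
  omega

theorem half_mul {K E : Type} [Field K] [NumberField K] [IsCMField K] [Field E] [NumberField E]
    [IsCMField E] (i : K →+* E) : half E = half E / half K * half K := by
  obtain ⟨y⟩ : Nonempty (K →+* ℂ) := inferInstance
  have h1 := card_ext i y
  rw [half_spec K, half_spec E] at h1
  have h2 : Nat.card {x : E →+* ℂ // x.comp i = y} * half K = half E := by
    have h3 : 2 * (Nat.card {x : E →+* ℂ // x.comp i = y} * half K) = 2 * half E := by
      rw [← h1]
      ring
    omega
  exact (Nat.div_mul_cancel ⟨_, by rw [mul_comm]; exact h2.symm⟩).symm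

theorem card_badAt (hchain : ∀ u v w : V, u ≤ w → v ≤ w → u ≤ v ∨ v ≤ u)
    (hcomp : ∀ (u v w : V) (h : u ≤ v) (h' : v ≤ w), (inc v w h').comp (inc u v h) =
      inc u w (h.trans h')) {M : ∀ i, (F (w i) →+* ℂ) → ℤ} (hM : ∀ i x, M i x ≠ 0) (i : Fin r)
    (u : V) (h : u ≤ w i) [DecidablePred fun i' : Fin r => i' < i ∧ u ≤ w i'] :
    ((badAt inc M i u h).card : ℝ) ≤ signProb (half (F (w i)) / half (F u)) ^
      (half (F u) - below F u - (Finset.univ.filter fun i' => i' < i ∧ u ≤ w i').card) *
        ∏ i, 2 ^ half (F (w i)) := by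
  classical
  let R : Type := {i' : Fin r // i' ≠ i}
  let A : Type := ∀ i' : R, Set (F (w i'.1) →+* ℂ)
  let res : (∀ i, Set (F (w i) →+* ℂ)) → A := fun Φ i' => Φ i'.1
  let W : Finset A := Fintype.piFinset fun i' => types (F (w i'.1))
  have hW : (W.card : ℝ) ≤ ∏ i' : R, 2 ^ half (F (w i'.1)) := by
    have h1 : W.card ≤ ∏ i' : R, 2 ^ half (F (w i'.1)) := by
      rw [Fintype.card_piFinset]
      exact Finset.prod_le_prod' fun i' _ => card_types (half_spec _)
    exact_mod_cast h1
  have hfib : ∀ v ∈ W, (((badAt inc M i u h).filter fun Φ => res Φ = v).card : ℝ) ≤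
      signProb (half (F (w i)) / half (F u)) ^
      (half (F u) - below F u - (Finset.univ.filter fun i' => i' < i ∧ u ≤ w i').card) *
        2 ^ half (F (w i)) := by
    intro v _
    rcases ((badAt inc M i u h).filter fun Φ => res Φ = v).eq_empty_or_nonempty with he | ⟨Φ₀, hΦ₀⟩
    · rw [he, Finset.card_empty, Nat.cast_zero]
      unfold signProb
      positivity
    rw [Finset.mem_filter] at hΦ₀
    have h1 : ((badAt inc M i u h).filter fun Φ => res Φ = v).card ≤
        (typesN (inc u (w i) h) (M i) (prev inc M i u Φ₀)).card := by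
      refine Finset.card_le_card_of_injOn (fun Φ => Φ i) ?_ ?_
      · intro Φ hΦ
        rw [Finset.mem_coe, Finset.mem_filter] at hΦ
        have hΦ1 := hΦ.1
        rw [badAt, Finset.mem_filter, Fintype.mem_piFinset] at hΦ1
        rw [Finset.mem_coe, typesN, Finset.mem_filter]
        refine ⟨hΦ1.1 i, ?_⟩
        have h2 : prev inc M i u Φ₀ = prev inc M i u Φ := by
          unfold prev
          have h3 : ∀ i' : {i' : Fin r // i' < i ∧ u ≤ w i'}, Φ₀ i'.1 = Φ i'.1 := by
            intro i'
            exact congrFun (hΦ₀.2.trans hΦ.2.symm) ⟨i'.1, i'.2.1.ne⟩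
          simp only [h3]
        rw [h2]
        exact hΦ1.2
      · intro Φ hΦ Ψ hΨ heq
        rw [Finset.mem_coe, Finset.mem_filter] at hΦ hΨ
        funext i'
        by_cases hi : i' = i
        · subst hi
          exact heq
        · exact congrFun (hΦ.2.trans hΨ.2.symm) ⟨i', hi⟩
    have h2 := card_typesN (inc u (w i) h) (hM i) (half_spec (F u)) (half_spec (F (w i)))
      (half_mul (inc u (w i) h)) (prev inc M i u Φ₀) (finrank_prev hchain hcomp M i u Φ₀)
    rw [Nat.sub_sub]
    exact (Nat.cast_le.2 h1).trans h2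
  have hsum : ((badAt inc M i u h).card : ℝ) =
      ∑ v ∈ W, (((badAt inc M i u h).filter fun Φ => res Φ = v).card : ℝ) := by
    rw [← Nat.cast_sum]
    congr 1
    refine Finset.card_eq_sum_card_fiberwise fun Φ hΦ => ?_
    rw [Finset.mem_coe, badAt, Finset.mem_filter, Fintype.mem_piFinset] at hΦ
    rw [Finset.mem_coe, Fintype.mem_piFinset]
    exact fun i' => hΦ.1 i'.1
  rw [hsum]
  refine (Finset.sum_le_sum hfib).trans ?_
  rw [Finset.sum_const, nsmul_eq_mul]
  have hprod : (∏ i, (2 : ℝ) ^ half (F (w i))) =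
      2 ^ half (F (w i)) * ∏ i' : R, 2 ^ half (F (w i'.1)) := by
    rw [← Finset.mul_prod_erase univ (fun i => (2 : ℝ) ^ half (F (w i))) (Finset.mem_univ i)]
    congr 1
    refine Finset.prod_subtype (p := fun i' => i' ≠ i) _ (fun i' => by simp) _
  rw [hprod]
  have hnn : (0 : ℝ) ≤ signProb (half (F (w i)) / half (F u)) ^
      (half (F u) - below F u - (Finset.univ.filter fun i' => i' < i ∧ u ≤ w i').card) *
        2 ^ half (F (w i)) := by
    unfold signProb
    positivity
  calc _ ≤ (∏ i' : R, (2 : ℝ) ^ half (F (w i'.1))) * _ := mul_le_mul_of_nonneg_right hW hnn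
    _ = _ := by ring

end Pool.Agent.Run7.h301.TW
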