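import Mathlib
import Pool.Agent.Run7.h142.TF.Scale
import Pool.Agent.Run7.h301.TW.Family
import Pool.Agent.H977R3.CM.Tower

/-!
# The norms of most families of CM types are independent (helper301)
-/

set_option autoImplicit false
set_option linter.unusedSectionVars false

namespace Pool.Agent.Run7.h301.TW

open Finset Module NumberField Pool.Agent.TH170.CM Pool.Agent.H204R3.CM Pool.Agent.Run7.h142.JT

variable {V : Type} [Fintype V] [PartialOrder V] {F : V → Type}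
  [∀ v, Field (F v)] [∀ v, NumberField (F v)] [∀ v, IsCMField (F v)]
  {inc : Inclusions F} {r : ℕ} {w : Fin r → V}

/-- Embeddings extend. -/
theorem exists_ext {K E : Type} [Field K] [NumberField K] [Field E] [NumberField E]
    (i : K →+* E) (y : K →+* ℂ) : ∃ x : E →+* ℂ, x.comp i = y := by
  have h1 := card_ext i y
  have h2 : 0 < finrank ℚ E := finrank_pos
  have h3 : Nat.card {x : E →+* ℂ // x.comp i = y} ≠ 0 := by
    intro h
    rw [h, zero_mul] at h1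
    omega
  have h4 : Nonempty {x : E →+* ℂ // x.comp i = y} := by
    by_contra hcon
    rw [not_nonempty_iff] at hcon
    exact h3 Nat.card_of_isEmpty
  obtain ⟨x, hx⟩ := h4
  exact ⟨x, hx⟩

theorem tnorm_odd {K E : Type} [Field K] [Field E] [NumberField E]
    (i : K →+* E) {M : (E →+* ℂ) → ℤ} (hM : ∀ x, M (ComplexEmbedding.conjugate x) = M x)
    {Φ : Set (E →+* ℂ)} (hΦ : IsCMType Φ) : tnorm i M Φ ∈ oddFun K := by
  classical
  intro y
  unfold tnorm
  rw [← Finset.sum_neg_distrib]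
  refine Finset.sum_nbij' (fun x => ComplexEmbedding.conjugate x)
    (fun x => ComplexEmbedding.conjugate x) (fun _ _ => Finset.mem_univ _)
    (fun _ _ => Finset.mem_univ _) (fun x _ => conj_conj' x) (fun x _ => conj_conj' x)
    (fun x _ => ?_)
  have h1 : (ComplexEmbedding.conjugate x).comp i = y ↔
      x.comp i = ComplexEmbedding.conjugate y := by
    rw [conj_comp']
    constructor
    · intro h
      rw [← h, conj_conj']
    · intro h
      rw [h, conj_conj']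
  have h2 : sgnF Φ (ComplexEmbedding.conjugate x) = - sgnF Φ x := by
    unfold sgnF
    have h3 := hΦ x
    by_cases hx : x ∈ Φ
    · rw [if_pos hx, if_neg (h3.1 hx)]
    · have h4 : ComplexEmbedding.conjugate x ∈ Φ := by
        by_contra hcon
        exact hx (h3.2 hcon)
      rw [if_neg hx, if_pos h4, neg_neg]
  by_cases hy : x.comp i = ComplexEmbedding.conjugate y
  · rw [if_pos hy, if_pos (h1.2 hy), hM, h2]
    ring
  · rw [if_neg hy, if_neg (fun h => hy (h1.1 h)), neg_zero]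

theorem inc_self (hcomp : ∀ (u v w : V) (h : u ≤ v) (h' : v ≤ w),
    (inc v w h').comp (inc u v h) = inc u w (h.trans h')) (u : V) (h : u ≤ u) (a : F u) :
    inc u u h a = a := by
  have h1 := RingHom.congr_fun (hcomp u u u h h) a
  exact (inc u u h).injective h1

theorem indep_of_good (hchain : ∀ u v w : V, u ≤ w → v ≤ w → u ≤ v ∨ v ≤ u)
    (hcomp : ∀ (u v w : V) (h : u ≤ v) (h' : v ≤ w), (inc v w h').comp (inc u v h) =
      inc u w (h.trans h')) {M : ∀ i, (F (w i) →+* ℂ) → ℤ}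
    (hM : ∀ i x, M i (ComplexEmbedding.conjugate x) = M i x) {Φ : ∀ i, Set (F (w i) →+* ℂ)}
    (hΦ : ∀ i, IsCMType (Φ i))
    (hgood : ∀ i u (h : u ≤ w i), tnorm (inc u (w i) h) (M i) (Φ i) ∉ prev inc M i u Φ)
    (i₀ : Fin r) : LinearIndependent ℚ fun x : {x : Fin r × V // x.2 ≤ w i₀ ∧ x.2 ≤ w x.1} =>
      fun y : F (w i₀) →+* ℂ => tnorm (inc x.1.2 (w x.1.1) x.2.2) (M x.1.1) (Φ x.1.1)
        (y.comp (inc x.1.2 (w i₀) x.2.1)) := by
  classical
  rw [Fintype.linearIndependent_iff]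
  intro q hq
  by_contra hcon
  push Not at hcon
  obtain ⟨x₁, hx₁⟩ := hcon
  let S : Finset V := (univ.filter fun x : {x : Fin r × V // x.2 ≤ w i₀ ∧ x.2 ≤ w x.1} =>
    q x ≠ 0).image fun x => x.1.2
  have hS : S.Nonempty := ⟨x₁.1.2, Finset.mem_image.2 ⟨x₁, by simp [hx₁], rfl⟩⟩
  obtain ⟨u, hu⟩ := S.exists_maximal hS
  have huS : u ∈ S := hu.prop
  have hmax : ∀ x, q x ≠ 0 → u ≤ x.1.2 → x.1.2 ≤ u := fun x hx hle =>
    hu.le_of_ge (Finset.mem_image.2 ⟨x, by simp [hx], rfl⟩) hle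
  obtain ⟨x₂, hx₂, rfl⟩ := Finset.mem_image.1 huS
  obtain ⟨⟨i₂, u⟩, h₂⟩ := x₂
  change u ≤ w i₀ ∧ u ≤ w i₂ at h₂
  change ∀ x : {x : Fin r × V // x.2 ≤ w i₀ ∧ x.2 ≤ w x.1}, q x ≠ 0 → u ≤ x.1.2 → x.1.2 ≤ u at hmax
  rw [Finset.mem_filter] at hx₂
  let J : Finset (Fin r) := univ.filter fun i =>
    ∃ h : (u ≤ w i₀ ∧ u ≤ w i), q ⟨(i, u), h⟩ ≠ 0
  have hJ : J.Nonempty := ⟨i₂, by
    simp only [J, Finset.mem_filter, Finset.mem_univ, true_and]
    exact ⟨h₂, hx₂.2⟩⟩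
  obtain ⟨i, hi⟩ : ∃ i, i = J.max' hJ := ⟨_, rfl⟩
  have hiJ : i ∈ J := hi ▸ J.max'_mem hJ
  have hile : ∀ i' ∈ J, i' ≤ i := fun i' hi' => hi ▸ J.le_max' i' hi'
  obtain ⟨h, hq0⟩ : ∃ h : (u ≤ w i₀ ∧ u ≤ w i), q ⟨(i, u), h⟩ ≠ 0 := by
    simpa only [J, Finset.mem_filter, Finset.mem_univ, true_and] using hiJ
  let T : {x : Fin r × V // x.2 ≤ w i₀ ∧ x.2 ≤ w x.1} → (F u →+* ℂ) → ℚ := fun x =>
    if h' : x.1.2 ≤ u then fun y => tnorm (inc x.1.2 (w x.1.1) x.2.2) (M x.1.1) (Φ x.1.1)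
      (y.comp (inc x.1.2 u h')) else 0
  have hcmp : ∀ x, q x ≠ 0 → x.1.2 ≤ u := by
    intro x hx
    rcases hchain x.1.2 u (w i₀) x.2.1 h.1 with h' | h'
    · exact h'
    · exact hmax x hx h'
  have hsum : ∑ x, q x • T x = 0 := by
    funext y
    obtain ⟨z, hz⟩ := exists_ext (inc u (w i₀) h.1) y
    have h3 := congrFun hq z
    rw [Finset.sum_apply] at h3 ⊢
    refine Eq.trans ?_ h3
    refine Finset.sum_congr rfl fun x _ => ?_
    rw [Pi.smul_apply, Pi.smul_apply, smul_eq_mul, smul_eq_mul]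
    by_cases hx : q x = 0
    · rw [hx, zero_mul, zero_mul]
    · simp only [T, dif_pos (hcmp x hx)]
      rw [← hz, RingHom.comp_assoc, hcomp]
  have hTin : ∀ (i' : Fin r) (h' : u ≤ w i₀ ∧ u ≤ w i'),
      T ⟨(i', u), h'⟩ = tnorm (inc u (w i') h'.2) (M i') (Φ i') := by
    intro i' h'
    simp only [T, dif_pos (le_refl u)]
    funext y
    congr 1
    ext a
    exact congrArg y (inc_self hcomp u le_rfl a)
  refine hgood i u h.2 ?_
  have hrest : ∑ x ∈ univ.erase (⟨(i, u), h⟩ : {x : Fin r × V // x.2 ≤ w i₀ ∧ x.2 ≤ w x.1}),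
      q x • T x ∈ prev inc M i u Φ := by
    refine Submodule.sum_mem _ fun x hx => ?_
    have hne := Finset.ne_of_mem_erase hx
    by_cases hx0 : q x = 0
    · rw [hx0, zero_smul]
      exact Submodule.zero_mem _
    refine Submodule.smul_mem _ _ ?_
    have hle := hcmp x hx0
    rcases lt_or_eq_of_le hle with hlt | heq
    · refine Submodule.mem_sup_left ?_
      refine Submodule.mem_iSup_of_mem ⟨x.1.2, hlt⟩ ?_
      refine ⟨tnorm (inc x.1.2 (w x.1.1) x.2.2) (M x.1.1) (Φ x.1.1),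
        tnorm_odd _ (hM _) (hΦ _), ?_⟩
      simp only [T, dif_pos hle]
      rfl
    · refine Submodule.mem_sup_right ?_
      obtain ⟨⟨i', u'⟩, h'⟩ := x
      change u' = u at heq
      subst heq
      rw [hTin]
      refine Submodule.subset_span ⟨⟨i', lt_of_le_of_ne (hile i' ?_) ?_, h'.2⟩, rfl⟩
      · simp only [J, Finset.mem_filter, Finset.mem_univ, true_and]
        exact ⟨h', hx0⟩
      · rintro rfl
        exact hne rfl
  rw [← Finset.add_sum_erase _ _ (Finset.mem_univ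
    (⟨(i, u), h⟩ : {x : Fin r × V // x.2 ≤ w i₀ ∧ x.2 ≤ w x.1})), hTin] at hsum
  have h4 : q ⟨(i, u), h⟩ • tnorm (inc u (w i) h.2) (M i) (Φ i) ∈ prev inc M i u Φ := by
    rw [eq_neg_of_add_eq_zero_left hsum]
    exact Submodule.neg_mem _ hrest
  exact (Submodule.smul_mem_iff _ hq0).1 h4

/-- The proportion of the exceptional families. -/
theorem ncard_bad (hchain : ∀ u v w : V, u ≤ w → v ≤ w → u ≤ v ∨ v ≤ u)
    (hcomp : ∀ (u v w : V) (h : u ≤ v) (h' : v ≤ w), (inc v w h').comp (inc u v h) =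
      inc u w (h.trans h')) {M : ∀ i, (F (w i) →+* ℂ) → ℤ} (hM0 : ∀ i x, M i x ≠ 0)
    (Q : (∀ i, Set (F (w i) →+* ℂ)) → Prop)
    (hQ : ∀ Φ : ∀ i, Set (F (w i) →+* ℂ), (∀ i, IsCMType (Φ i)) →
      (∀ i u (h : u ≤ w i), tnorm (inc u (w i) h) (M i) (Φ i) ∉ prev inc M i u Φ) → Q Φ) :
    ({Φ : ∀ i, Set (F (w i) →+* ℂ) | (∀ i, IsCMType (Φ i)) ∧ ¬ Q Φ}.ncard : ℝ) ≤
      exceptional F w * ∏ i, 2 ^ half (F (w i)) := by
  classical
  let B : Finset (∀ i, Set (F (w i) →+* ℂ)) := univ.biUnion fun i : Fin r =>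
    univ.biUnion fun u : V => if h : u ≤ w i then badAt inc M i u h else ∅
  have hsub : {Φ : ∀ i, Set (F (w i) →+* ℂ) | (∀ i, IsCMType (Φ i)) ∧ ¬ Q Φ} ⊆ (B : Set _) := by
    rintro Φ ⟨h1, h2⟩
    by_contra hcon
    refine h2 (hQ Φ h1 fun i u h hmem => hcon ?_)
    rw [Finset.mem_coe]
    simp only [B, Finset.mem_biUnion, Finset.mem_univ, true_and]
    refine ⟨i, u, ?_⟩
    rw [dif_pos h, badAt, Finset.mem_filter, Fintype.mem_piFinset]
    exact ⟨fun i => by simpa [types] using h1 i, hmem⟩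
  have h1 : ({Φ : ∀ i, Set (F (w i) →+* ℂ) | (∀ i, IsCMType (Φ i)) ∧ ¬ Q Φ}.ncard : ℝ) ≤
      (B.card : ℝ) := by
    have h2 := Set.ncard_le_ncard hsub B.finite_toSet
    rw [Set.ncard_coe_finset] at h2
    exact_mod_cast h2
  refine h1.trans ?_
  have h2 : B.card ≤ ∑ i : Fin r, ∑ u : V,
      (if h : u ≤ w i then badAt inc M i u h else ∅).card :=
    Finset.card_biUnion_le.trans (Finset.sum_le_sum fun i _ => Finset.card_biUnion_le)
  refine (Nat.cast_le.2 h2).trans ?_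
  rw [Nat.cast_sum, exceptional, Finset.sum_mul]
  refine Finset.sum_le_sum fun i _ => ?_
  rw [Nat.cast_sum, Finset.sum_mul]
  refine Finset.sum_le_sum fun u _ => ?_
  by_cases h : u ≤ w i
  · rw [dif_pos h, if_pos h]
    exact card_badAt hchain hcomp hM0 i u h
  · rw [dif_neg h, if_neg h, Finset.card_empty, Nat.cast_zero, zero_mul]

end Pool.Agent.Run7.h301.TW
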