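import Mathlib
import Pool.Agent.Run7.h301.TW.Defs

/-!
# Examples of free forests: the statement (helper301)
-/

set_option autoImplicit false

namespace Pool.Agent.Run7.h301.TW

open NumberField Module

/-- Examples of free forests: a CM field `F e` with an imaginary quadratic subfield `F o` and the
maximal real subfield `K`, such that the automorphisms of `ℂ` act doubly transitively on the embeddings
of `K`. -/
def ForestExamples : Prop :=
  ∀ (V : Type) [Fintype V] [PartialOrder V] (F : V → Type) [∀ v, Field (F v)]
    [∀ v, NumberField (F v)] [∀ v, IsCMField (F v)] (inc : Inclusions F)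
    (o e : V) (K : Type) [Field K] [NumberField K] [IsTotallyReal K], Nonempty (K →+* F e) →
    finrank ℚ (F e) = 2 * finrank ℚ K → (∀ x y y' : K →+* ℂ, y ≠ x → y' ≠ x →
      ∃ σ : ℂ ≃+* ℂ, (σ : ℂ →+* ℂ).comp x = x ∧ (σ : ℂ →+* ℂ).comp y = y') →
    o < e → (∀ v, v = o ∨ v = e) → finrank ℚ (F o) = 2 →
    Compatible inc → FreeForest F inc

end Pool.Agent.Run7.h301.TW
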