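import Mathlib
import Pool.Agent.Run7.h301.TW.Dep
import Pool.Agent.Run7.h301.TW.ExamplesDefs
import Pool.Agent.Run7.h142.JT.Primitive

/-!
# Examples of free forests of CM fields (helper301)
-/

set_option autoImplicit false
set_option linter.unusedSectionVars false

namespace Pool.Agent.Run7.h301.TW

open Module NumberField Pool.Agent.H204R3.CM Pool.Agent.Run7.h142.JT

/-- Two embeddings of a CM field with the same restriction to the maximal real subfield. -/
theorem eq_or_conj {K E : Type} [Field K] [NumberField K] [IsTotallyReal K] [Field E]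
    [NumberField E] [IsCMField E] (ι : K →+* E) (hdeg : finrank ℚ E = 2 * finrank ℚ K)
    (x y : E →+* ℂ) (h : x.comp ι = y.comp ι) : y = x ∨ y = ComplexEmbedding.conjugate x := by
  classical
  have h1 := card_ext ι (x.comp ι)
  have h3 : 0 < finrank ℚ K := finrank_pos
  rw [hdeg] at h1
  have h4 : Nat.card {z : E →+* ℂ // z.comp ι = x.comp ι} = 2 :=
    Nat.eq_of_mul_eq_mul_right h3 h1
  have hreal : (ComplexEmbedding.conjugate x).comp ι = x.comp ι := by
    rw [conj_comp']
    exact (IsTotallyReal.complexEmbedding_isReal (x.comp ι))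
  by_contra hcon
  push Not at hcon
  obtain ⟨hn1, hn2⟩ := hcon
  let S : Finset {z : E →+* ℂ // z.comp ι =
      x.comp ι} :=
    {⟨x, rfl⟩, ⟨ComplexEmbedding.conjugate x, hreal⟩, ⟨y, h.symm⟩}
  have hS : S.card = 3 := by
    have e1 : (⟨x, rfl⟩ : {z : E →+* ℂ // z.comp ι =
        x.comp ι}) ≠ ⟨ComplexEmbedding.conjugate x, hreal⟩ :=
      fun h => conj_ne x (congrArg Subtype.val h).symm
    have e2 : (⟨x, rfl⟩ : {z : E →+* ℂ // z.comp ι =
        x.comp ι}) ≠ ⟨y, h.symm⟩ :=
      fun h => hn1 (congrArg Subtype.val h).symm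
    have e3 : (⟨ComplexEmbedding.conjugate x, hreal⟩ :
        {z : E →+* ℂ // z.comp ι =
        x.comp ι}) ≠ ⟨y, h.symm⟩ :=
      fun h => hn2 (congrArg Subtype.val h).symm
    simp only [S]
    rw [Finset.card_insert_of_notMem, Finset.card_insert_of_notMem, Finset.card_singleton]
    · simpa using e3
    · simp only [Finset.mem_insert, Finset.mem_singleton, not_or]
      exact ⟨e1, e2⟩
  have h5 := Finset.card_le_univ S
  rw [hS, ← Nat.card_eq_fintype_card, h4] at h5
  omega

/-- CM fields without rigid pairs form a free forest. -/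
theorem freeForest_of_noRigidPairs {V : Type} [Fintype V] [PartialOrder V] {F : V → Type}
    [∀ v, Field (F v)] [∀ v, NumberField (F v)] [∀ v, IsCMField (F v)]
    {inc : Inclusions F}
    (hcomp : ∀ (u v w : V) (h : u ≤ v) (h' : v ≤ w), (inc v w h').comp (inc u v h) =
      inc u w (h.trans h')) (hV : ∀ u v : V, u ≤ v → u = v) (hF : NoRigidPairs F) :
    FreeForest F inc := by
    refine ⟨?_, hcomp, ?_, ?_⟩
    · intro u v w h h'
      rw [hV u w h, hV v w h']
      exact Or.inl le_rfl
    · intro v w x y h1 h2
      refine hF ⟨v, x⟩ ⟨w, y⟩ ?_ ?_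
      · intro h
        obtain ⟨e1, e2⟩ := Sigma.mk.inj h
        subst e1
        cases e2
        exact h1 _ ⟨le_rfl, le_rfl, rfl⟩
      · intro h
        obtain ⟨e1, e2⟩ := Sigma.mk.inj h
        subst e1
        cases e2
        refine h2 _ ⟨le_rfl, le_rfl, ?_⟩
        rw [conj_conj']
    · rintro v w x y y' ⟨u, hu⟩ hag
      obtain ⟨h1, h2, h3⟩ := id hu
      have e1 := hV u v h1
      subst e1
      have e2 := hV u w h2
      subst e2
      have hid : inc u u h1 = RingHom.id _ := by
        ext a
        exact inc_self hcomp u h1 a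
      have h4 : x = y := by
        rw [hid, RingHom.comp_id, RingHom.comp_id] at h3
        exact h3
      obtain ⟨_, _, h5⟩ := (hag u).1 hu
      have h6 : x = y' := by
        rw [hid, RingHom.comp_id, RingHom.comp_id] at h5
        exact h5
      refine ⟨RingEquiv.refl ℂ, rfl, ?_⟩
      rw [← h4, ← h6]
      rfl
theorem forestExamples : ForestExamples := by
    intro V _ _ F _ _ _ inc o e K _ _ _ hι hdeg h2t hoe hV hk hcomp0
    have hcomp : ∀ (u v w : V) (h : u ≤ v) (h' : v ≤ w), (inc v w h').comp (inc u v h) =
      inc u w (h.trans h') := hcomp0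
    obtain ⟨ι⟩ := hι
    have hid : ∀ u (h : u ≤ u), inc u u h = RingHom.id _ := by
      intro u h
      ext a
      exact inc_self hcomp u h a
    have hbot : ∀ v, o ≤ v := by
      intro v
      rcases hV v with rfl | rfl
      · exact le_rfl
      · exact hoe.le
    have hoconj : ∀ z z' : F o →+* ℂ, z' = z ∨ z' = ComplexEmbedding.conjugate z := by
      classical
      intro z z'
      by_contra hcon
      push Not at hcon
      have h1 : Fintype.card (F o →+* ℂ) = 2 := by rw [Embeddings.card, hk]
      let S : Finset (F o →+* ℂ) := {z, ComplexEmbedding.conjugate z, z'}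
      have hS : S.card = 3 := by
        simp only [S]
        rw [Finset.card_insert_of_notMem, Finset.card_insert_of_notMem, Finset.card_singleton]
        · simpa using hcon.2.symm
        · simp only [Finset.mem_insert, Finset.mem_singleton, not_or]
          exact ⟨(conj_ne z).symm, hcon.1.symm⟩
      have h5 := Finset.card_le_univ S
      omega
    refine ⟨?_, hcomp, ?_, ?_⟩
    · intro u v w _ _
      rcases hV u with rfl | rfl
      · exact Or.inl (hbot v)
      · rcases hV v with rfl | rfl
        · exact Or.inr hoe.le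
        · exact Or.inl le_rfl
    · intro v w x y h1 h2
      exfalso
      rcases hoconj (x.comp (inc o v (hbot v))) (y.comp (inc o w (hbot w))) with h | h
      · exact h1 o ⟨hbot v, hbot w, h.symm⟩
      · refine h2 o ⟨hbot v, hbot w, ?_⟩
        rw [conj_comp', h, conj_conj']
    · rintro v w x y y' ⟨u, hu⟩ hag
      -- all three agree on `F o`
      have hyo : x.comp (inc o v (hbot v)) = y.comp (inc o w (hbot w)) := by
        obtain ⟨h1, h2, h3⟩ := hu
        have h4 := congrArg (fun z => z.comp (inc o u (hbot u))) h3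
        simp only [RingHom.comp_assoc, hcomp] at h4
        exact h4
      have hyo' : x.comp (inc o v (hbot v)) = y'.comp (inc o w (hbot w)) := by
        obtain ⟨_, _, h⟩ := (hag o).1 ⟨hbot v, hbot w, hyo⟩
        exact h
      rcases hV w with rfl | rfl
      · refine ⟨RingEquiv.refl ℂ, rfl, ?_⟩
        have h1 := hyo.symm.trans hyo'
        rw [hid, RingHom.comp_id, RingHom.comp_id] at h1
        rw [← h1]
        rfl
      rcases hV v with rfl | rfl
      · obtain ⟨σ, hσ⟩ := exists_comp y y'
        refine ⟨σ, ?_, hσ⟩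
        rw [hid, RingHom.comp_id] at hyo hyo'
        rw [hyo, ← RingHom.comp_assoc, hσ, ← hyo', hyo]
      by_cases hxy : y = x
      · have h1 : x = y' := by
          obtain ⟨_, _, h⟩ := (hag v).1 ⟨le_rfl, le_rfl, by rw [hxy]⟩
          rw [hid, RingHom.comp_id, RingHom.comp_id] at h
          exact h
        refine ⟨RingEquiv.refl ℂ, rfl, ?_⟩
        rw [hxy, ← h1]
        rfl
      have hxy' : y' ≠ x := by
        rintro rfl
        obtain ⟨_, _, h⟩ := (hag v).2 ⟨le_rfl, le_rfl, rfl⟩
        rw [hid, RingHom.comp_id, RingHom.comp_id] at h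
        exact hxy h.symm
      -- two embeddings with the same restrictions to both subfields are equal
      have huniq : ∀ z z' : F v →+* ℂ, z.comp (inc o v (hbot v)) = z'.comp (inc o v (hbot v)) →
          z.comp ι =
            z'.comp ι → z' = z := by
        intro z z' h1 h2
        rcases eq_or_conj ι hdeg z z' h2 with h | h
        · exact h
        · exfalso
          rw [h, conj_comp'] at h1
          exact conj_ne _ h1.symm
      have hne : y.comp ι ≠
          x.comp ι := by
        intro h
        exact hxy (huniq x y hyo h.symm)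
      have hne' : y'.comp ι ≠
          x.comp ι := by
        intro h
        exact hxy' (huniq x y' hyo' h.symm)
      have hfin : ∀ σ : ℂ ≃+* ℂ, (σ : ℂ →+* ℂ).comp x = x →
          ((σ : ℂ →+* ℂ).comp y).comp ι =
            y'.comp ι → (σ : ℂ →+* ℂ).comp y = y' := by
        intro σ h1 h2
        refine huniq y' _ ?_ h2.symm
        rw [RingHom.comp_assoc, ← hyo, ← hyo', ← RingHom.comp_assoc, h1]
      have hreal : ∀ z : F v →+* ℂ,
          (ComplexEmbedding.conjugate z).comp ι =
            z.comp ι := by
        intro z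
        rw [conj_comp']
        exact (IsTotallyReal.complexEmbedding_isReal
          (z.comp ι))
      obtain ⟨σ, hσ1, hσ2⟩ := h2t _ _ _ hne hne'
      rcases eq_or_conj ι hdeg x ((σ : ℂ →+* ℂ).comp x) (by
        rw [RingHom.comp_assoc]
        exact hσ1.symm) with h | h
      · exact ⟨σ, h, hfin σ h (by rw [RingHom.comp_assoc]; exact hσ2)⟩
      · have h' : ((σ.trans (starRingAut : ℂ ≃+* ℂ) : ℂ ≃+* ℂ) : ℂ →+* ℂ).comp x = x := by
          have h3 : ((σ.trans (starRingAut : ℂ ≃+* ℂ) : ℂ ≃+* ℂ) : ℂ →+* ℂ).comp x =
              ComplexEmbedding.conjugate ((σ : ℂ →+* ℂ).comp x) := rfl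
          rw [h3, h, conj_conj']
        refine ⟨σ.trans (starRingAut : ℂ ≃+* ℂ), h', hfin _ h' ?_⟩
        have h3 : ((σ.trans (starRingAut : ℂ ≃+* ℂ) : ℂ ≃+* ℂ) : ℂ →+* ℂ).comp y =
            ComplexEmbedding.conjugate ((σ : ℂ →+* ℂ).comp y) := rfl
        rw [h3, hreal, RingHom.comp_assoc]
        exact hσ2

end Pool.Agent.Run7.h301.TW
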