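import Mathlib

/-!
# Relations between translates of odd functions on a forest of permutation representations (helper301)
-/

set_option autoImplicit false
set_option linter.unusedSectionVars false

namespace Pool.Agent.Run7.h301.TW

theorem exists_sum_le {V : Type*} [Fintype V] [PartialOrder V] [DecidableLE V] (C : V → ℚ) :
    ∃ δ : V → ℚ, ∀ m, ∑ u ∈ Finset.univ.filter (fun u => u ≤ m), δ u = C m := by
  classical
  let T : (V → ℚ) →ₗ[ℚ] (V → ℚ) :=
    { toFun := fun δ m => ∑ u ∈ Finset.univ.filter (fun u => u ≤ m), δ u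
      map_add' := fun δ ε => by
        funext m
        simp only [Pi.add_apply, Finset.sum_add_distrib]
      map_smul' := fun r δ => by
        funext m
        simp only [Pi.smul_apply, smul_eq_mul, RingHom.id_apply, Finset.mul_sum] }
  have hT : Function.Injective T := by
    rw [injective_iff_map_eq_zero]
    intro δ hδ
    have h : ∀ m, δ m = 0 := by
      intro m
      induction m using (wellFounded_lt (α := V)).induction with
      | _ m ih =>
        have h1 : ∑ u ∈ Finset.univ.filter (fun u => u ≤ m), δ u = 0 := congrFun hδ m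
        rw [Finset.sum_eq_single m] at h1
        · exact h1
        · intro u hu hne
          exact ih u (lt_of_le_of_ne (Finset.mem_filter.1 hu).2 hne)
        · intro hm
          have hm' : m ∈ Finset.univ.filter (fun u => u ≤ m) :=
            Finset.mem_filter.2 ⟨Finset.mem_univ _, le_refl m⟩
          exact absurd hm' hm
    exact funext h
  obtain ⟨δ, hδ⟩ := (LinearMap.injective_iff_surjective.1 hT) C
  exact ⟨δ, fun m => congrFun hδ m⟩

section

variable {V : Type*} [Fintype V] [PartialOrder V] (X : V → Type*)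
  (res : ∀ u v, u ≤ v → X v → X u)

/-- `x` and `y` have the same restriction to the level `u`. -/
def Ag {v w : V} (x : X v) (y : X w) (u : V) : Prop :=
  ∃ (h : u ≤ v) (h' : u ≤ w), res u v h x = res u w h' y

end

section

variable {V : Type*} [Fintype V] [PartialOrder V] {X : V → Type*} [∀ v, Fintype (X v)]
  {res : ∀ u v, u ≤ v → X v → X u}

theorem exists_top
    (hchain : ∀ u v w : V, u ≤ w → v ≤ w → u ≤ v ∨ v ≤ u)
    (htr : ∀ u v w (h : u ≤ v) (h' : v ≤ w) (x : X w),
      res u v h (res v w h' x) = res u w (h.trans h') x)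
    {v w : V} {x : X v} {y : X w} {u₀ : V} (h₀ : Ag X res x y u₀) :
    ∃ m, ∀ u, Ag X res x y u ↔ u ≤ m := by
  classical
  let S : Finset V := Finset.univ.filter fun u => Ag X res x y u
  have hS : S.Nonempty := ⟨u₀, Finset.mem_filter.2 ⟨Finset.mem_univ _, h₀⟩⟩
  obtain ⟨m, hm⟩ := S.exists_maximal hS
  have hmS : Ag X res x y m := (Finset.mem_filter.1 hm.prop).2
  refine ⟨m, fun u => ⟨fun hu => ?_, fun hu => ?_⟩⟩
  · obtain ⟨_, h1, _⟩ := id hu
    obtain ⟨_, h2, _⟩ := hmS
    rcases hchain u m w h1 h2 with h | h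
    · exact h
    · exact hm.le_of_ge (Finset.mem_filter.2 ⟨Finset.mem_univ _, hu⟩) h
  · obtain ⟨h1, h2, h3⟩ := hmS
    refine ⟨hu.trans h1, hu.trans h2, ?_⟩
    rw [← htr u m v hu h1, ← htr u m w hu h2, h3]

theorem ag_disjoint {bar : ∀ v, X v → X v} (hne : ∀ v x, bar v x ≠ x)
    (hres : ∀ u v (h : u ≤ v) x, res u v h (bar v x) = bar u (res u v h x))
    (hchain : ∀ u v w : V, u ≤ w → v ≤ w → u ≤ v ∨ v ≤ u)
    (htr : ∀ u v w (h : u ≤ v) (h' : v ≤ w) (x : X w),
      res u v h (res v w h' x) = res u w (h.trans h') x)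
    {v w : V} {x : X v} {y : X w} {u u' : V} (h : Ag X res x y u)
    (h' : Ag X res x (bar w y) u') : False := by
  have key : ∀ t, Ag X res x y t → Ag X res x (bar w y) t → False := by
    rintro t ⟨h1, h2, h3⟩ ⟨h4, h5, h6⟩
    rw [h3, hres] at h6
    exact hne _ _ h6.symm
  obtain ⟨h1, h2, h3⟩ := id h
  obtain ⟨h4, h5, h6⟩ := id h'
  rcases hchain u u' w h2 h5 with hh | hh
  · exact key u h ⟨h1, h2, by rw [← htr u u' v hh h4, ← htr u u' w hh h5, h6]⟩
  · exact key u' ⟨h4, h5, by rw [← htr u' u v hh h1, ← htr u' u w hh h2, h3]⟩ h'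

open Classical in
theorem vanish {G : Type*} [Group G] [Fintype G] [∀ v, MulAction G (X v)]
    {bar : ∀ v, X v → X v} (hbb : ∀ v x, bar v (bar v x) = x) (hne : ∀ v x, bar v x ≠ x)
    (hGb : ∀ (g : G) v x, g • bar v x = bar v (g • x))
    (hGr : ∀ (g : G) u v (h : u ≤ v) x, g • res u v h x = res u v h (g • x))
    (hres : ∀ u v (h : u ≤ v) x, res u v h (bar v x) = bar u (res u v h x))
    (hchain : ∀ u v w : V, u ≤ w → v ≤ w → u ≤ v ∨ v ≤ u)
    (htr : ∀ u v w (h : u ≤ v) (h' : v ≤ w) (x : X w),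
      res u v h (res v w h' x) = res u w (h.trans h') x)
    (htrans : ∀ v (x y : X v), ∃ g : G, g • x = y)
    (hflip : ∀ v w (x : X v) (y : X w), (∀ u, ¬ Ag X res x y u) →
      (∀ u, ¬ Ag X res x (bar w y) u) → ∃ g : G, g • x = x ∧ g • y = bar w y)
    (hmove : ∀ v w (x : X v) (y y' : X w) (u₀ : V), Ag X res x y u₀ →
      (∀ u, Ag X res x y u ↔ Ag X res x y' u) → ∃ g : G, g • x = x ∧ g • y = y')
    {I : Type*} [Fintype I] (w : I → V) (D : ∀ i, X (w i) → ℝ)
    (hD : ∀ i y, D i (bar _ y) = - D i y)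
    (hind : ∀ i₀ (δ : I → V → ℚ), (∀ x : X (w i₀), ∑ i, ∑ u, (δ i u : ℝ) *
      ∑ y : X (w i), (if Ag X res x y u then D i y else 0) = 0) →
        ∀ i u, u ≤ w i₀ → u ≤ w i → δ i u = 0)
    (c : ∀ i, X (w i) → ℚ) (hc : ∀ i y, c i (bar _ y) = - c i y)
    (hrel : ∀ g : G, ∑ i, ∑ y : X (w i), (c i y : ℝ) * D i (g • y) = 0) (i₀ : I) (x₀ : X (w i₀)) :
    c i₀ x₀ = 0 := by
  by_contra hx₀
  let H : Finset G := Finset.univ.filter fun g => g • x₀ = x₀
  let cb : ∀ i, X (w i) → ℚ := fun i y => ∑ g ∈ H, c i (g • y)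
  have hcb_inv : ∀ i (y : X (w i)) (h : G), h • x₀ = x₀ → cb i (h • y) = cb i y := by
    intro i y h hh
    refine Finset.sum_bij (fun g _ => g * h) ?_ ?_ ?_ ?_
    · intro g hg
      simp only [H, Finset.mem_filter, Finset.mem_univ, true_and] at hg ⊢
      rw [mul_smul, hh, hg]
    · intro a _ b _ hab
      exact mul_right_cancel hab
    · intro b hb
      refine ⟨b * h⁻¹, ?_, by group⟩
      simp only [H, Finset.mem_filter, Finset.mem_univ, true_and] at hb ⊢
      rw [mul_smul]
      have : h⁻¹ • x₀ = x₀ := by rw [inv_smul_eq_iff, hh]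
      rw [this, hb]
    · intro g _
      rw [mul_smul]
  have hcb_odd : ∀ i (y : X (w i)), cb i (bar _ y) = - cb i y := by
    intro i y
    simp only [cb]
    rw [← Finset.sum_neg_distrib]
    refine Finset.sum_congr rfl fun g _ => ?_
    rw [hGb, hc]
  have hcb0 : cb i₀ x₀ ≠ 0 := by
    have h1 : cb i₀ x₀ = H.card * c i₀ x₀ := by
      simp only [cb]
      rw [Finset.sum_congr rfl (g := fun _ => c i₀ x₀), Finset.sum_const, nsmul_eq_mul]
      intro g hg
      simp only [H, Finset.mem_filter, Finset.mem_univ, true_and] at hg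
      rw [hg]
    rw [h1]
    refine mul_ne_zero ?_ hx₀
    have h2 : (1 : G) ∈ H := by simp [H]
    exact_mod_cast (Finset.card_pos.2 ⟨1, h2⟩).ne'
  have hrel' : ∀ g : G, ∑ i, ∑ y : X (w i), (cb i y : ℝ) * D i (g • y) = 0 := by
    intro g
    have h1 : ∑ h ∈ H, ∑ i, ∑ y : X (w i), (c i (h • y) : ℝ) * D i (g • y) = 0 := by
      refine Finset.sum_eq_zero fun h _ => ?_
      rw [← hrel (g * h⁻¹)]
      refine Finset.sum_congr rfl fun i _ => ?_
      refine Fintype.sum_equiv (MulAction.toPerm h) _ _ fun y => ?_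
      change _ = (c i (h • y) : ℝ) * D i ((g * h⁻¹) • h • y)
      rw [mul_smul, inv_smul_smul]
    rw [Finset.sum_comm] at h1
    rw [← h1]
    refine Finset.sum_congr rfl fun i _ => ?_
    rw [Finset.sum_comm]
    refine Finset.sum_congr rfl fun y _ => ?_
    simp only [cb]
    rw [Rat.cast_sum, Finset.sum_mul]
  have hzero : ∀ i (y : X (w i)), (∀ u, ¬ Ag X res x₀ y u) →
      (∀ u, ¬ Ag X res x₀ (bar _ y) u) → cb i y = 0 := by
    intro i y h1 h2
    obtain ⟨g, hg1, hg2⟩ := hflip _ _ x₀ y h1 h2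
    have h3 := hcb_inv i y g hg1
    rw [hg2, hcb_odd] at h3
    linarith
  have hsame : ∀ i (y y' : X (w i)) u₀, Ag X res x₀ y u₀ →
      (∀ u, Ag X res x₀ y u ↔ Ag X res x₀ y' u) → cb i y' = cb i y := by
    intro i y y' u₀ h1 h2
    obtain ⟨g, hg1, hg2⟩ := hmove _ _ x₀ y y' u₀ h1 h2
    rw [← hg2]
    exact hcb_inv i y g hg1
  let C : I → V → ℚ := fun i m =>
    if h : ∃ y : X (w i), ∀ u, Ag X res x₀ y u ↔ u ≤ m then cb i h.choose else 0
  choose δ hδ using fun i => exists_sum_le (C i)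
  have hform1 : ∀ i (y : X (w i)) u₀, Ag X res x₀ y u₀ →
      cb i y = ∑ u, if Ag X res x₀ y u then δ i u else 0 := by
    intro i y u₀ h₀
    obtain ⟨m, hm⟩ := exists_top hchain htr h₀
    have hex : ∃ y : X (w i), ∀ u, Ag X res x₀ y u ↔ u ≤ m := ⟨y, hm⟩
    have h1 : C i m = cb i hex.choose := dif_pos hex
    have h2 : cb i hex.choose = cb i y :=
      hsame i y _ u₀ h₀ fun u => by rw [hm u, hex.choose_spec u]
    rw [← h2, ← h1, ← hδ i m, Finset.sum_filter]
    exact Finset.sum_congr rfl fun u _ => if_congr (hm u).symm rfl rfl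
  have hnot : ∀ {i} {y : X (w i)}, (∀ u, ¬ Ag X res x₀ y u) →
      (∑ u, if Ag X res x₀ y u then δ i u else 0) = 0 := by
    intro i y h
    exact Finset.sum_eq_zero fun u _ => if_neg (h u)
  have hform : ∀ i (y : X (w i)), cb i y = (∑ u, if Ag X res x₀ y u then δ i u else 0) -
      ∑ u, if Ag X res x₀ (bar _ y) u then δ i u else 0 := by
    intro i y
    by_cases h1 : ∃ u, Ag X res x₀ y u
    · obtain ⟨u₀, h1⟩ := h1
      rw [hform1 i y u₀ h1, hnot (y := bar _ y) fun u hu => ag_disjoint hne hres hchain htr h1 hu,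
        sub_zero]
    · by_cases h2 : ∃ u, Ag X res x₀ (bar _ y) u
      · obtain ⟨u₀, h2⟩ := h2
        have h3 := hform1 i (bar _ y) u₀ h2
        rw [hcb_odd] at h3
        rw [← h3, hnot (y := y) fun u hu => h1 ⟨u, hu⟩]
        ring
      · rw [hnot (y := y) fun u hu => h1 ⟨u, hu⟩, hnot (y := bar _ y) fun u hu => h2 ⟨u, hu⟩,
          hzero i y (fun u hu => h1 ⟨u, hu⟩) (fun u hu => h2 ⟨u, hu⟩), sub_zero]
  -- the relation for the averaged function
  have hAg : ∀ (g : G) {i} (y : X (w i)) u,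
      Ag X res x₀ (g⁻¹ • y) u ↔ Ag X res (g • x₀) y u := by
    intro g i y u
    constructor
    · rintro ⟨h1, h2, h3⟩
      refine ⟨h1, h2, ?_⟩
      rw [← hGr] at h3
      rw [← hGr, h3, smul_inv_smul]
    · rintro ⟨h1, h2, h3⟩
      refine ⟨h1, h2, ?_⟩
      rw [← hGr] at h3
      rw [← hGr, ← h3, inv_smul_smul]
  have hfin : ∀ x : X (w i₀), ∑ i, ∑ u, (δ i u : ℝ) *
      ∑ y : X (w i), (if Ag X res x y u then D i y else 0) = 0 := by
    intro x
    obtain ⟨g, rfl⟩ := htrans _ x₀ x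
    have e1 : ∀ i u, ∑ y : X (w i), (if Ag X res x₀ (bar _ y) u then D i (g • y) else 0) =
        - ∑ y : X (w i), (if Ag X res x₀ y u then D i (g • y) else 0) := by
      intro i u
      rw [← Finset.sum_neg_distrib]
      refine Finset.sum_nbij' (bar _) (bar _) (fun _ _ => Finset.mem_univ _)
        (fun _ _ => Finset.mem_univ _) (fun y _ => hbb _ y) (fun y _ => hbb _ y) (fun y _ => ?_)
      by_cases h : Ag X res x₀ (bar _ y) u
      · rw [if_pos h, if_pos h, hGb, hD, neg_neg]
      · rw [if_neg h, if_neg h, neg_zero]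
    have e2 : ∀ i u, ∑ y : X (w i), (if Ag X res x₀ y u then D i (g • y) else 0) =
        ∑ y : X (w i), (if Ag X res (g • x₀) y u then D i y else 0) := by
      intro i u
      refine Fintype.sum_equiv (MulAction.toPerm g) _ _ fun y => ?_
      change _ = if Ag X res (g • x₀) (g • y) u then D i (g • y) else 0
      refine if_congr ?_ rfl rfl
      rw [← hAg g (g • y) u, inv_smul_smul]
    have e3 := hrel' g
    have e4 : ∀ i, ∑ y : X (w i), (cb i y : ℝ) * D i (g • y) =
        2 * ∑ u, (δ i u : ℝ) * ∑ y : X (w i), (if Ag X res (g • x₀) y u then D i y else 0) := by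
      intro i
      have e5 : ∀ y : X (w i), (cb i y : ℝ) * D i (g • y) =
          ∑ u, ((δ i u : ℝ) * (if Ag X res x₀ y u then D i (g • y) else 0) -
            (δ i u : ℝ) * (if Ag X res x₀ (bar _ y) u then D i (g • y) else 0)) := by
        intro y
        rw [hform i y, ← Finset.sum_sub_distrib, Rat.cast_sum, Finset.sum_mul]
        refine Finset.sum_congr rfl fun u _ => ?_
        by_cases h1 : Ag X res x₀ y u <;> by_cases h2 : Ag X res x₀ (bar _ y) u <;>
          simp [h1, h2]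
      simp only [e5]
      rw [Finset.sum_comm, Finset.mul_sum]
      refine Finset.sum_congr rfl fun u _ => ?_
      rw [Finset.sum_sub_distrib, ← Finset.mul_sum, ← Finset.mul_sum, e1, e2]
      ring
    simp only [e4] at e3
    rw [← Finset.mul_sum] at e3
    linarith
  have hδ0 := hind i₀ δ hfin
  apply hcb0
  rw [hform i₀ x₀]
  have h1 : ∀ y : X (w i₀), (∑ u, if Ag X res x₀ y u then δ i₀ u else 0) = 0 := by
    intro y
    refine Finset.sum_eq_zero fun u _ => ?_
    by_cases h : Ag X res x₀ y u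
    · rw [if_pos h]
      obtain ⟨h1, h2, _⟩ := h
      exact hδ0 i₀ u h1 h2
    · rw [if_neg h]
  rw [h1, h1, sub_zero]

end

end Pool.Agent.Run7.h301.TW
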