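import Mathlib
import Pool.Agent.Run7.h142.TF.Angle
import Pool.Agent.Run7.h301.TW.Avg
import Pool.Agent.Run7.h301.TW.Defs

/-!
# Weil numbers with independent norms in a free forest of CM fields have maximal angle rank
-/

set_option autoImplicit false
set_option linter.unusedSectionVars false

namespace Pool.Agent.Run7.h301.TW

open NumberField Module Polynomial Pool.Agent.H204R3.CM Pool.Agent.H194R3.CM
  Pool.Agent.H977R3.CM Pool.Agent.W527 Pool.Agent.Y1.CT Pool.Agent.Y1.TS Pool.Agent.Y137.MV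
  Pool.Agent.Run7.h142.JT Pool.Agent.Run7.h142.TF

/-- Complex conjugation commutes with embeddings of CM fields. -/
theorem cbar_res {F K L : Type} [Field F] [NumberField F] [IsCMField F] [Field K] [NumberField K]
    [IsCMField K] [Field L] (j : L →+* ℂ) (i : F →+* K) (x : K →+* L) :
    (cbar x).comp i = cbar (x.comp i) := by
  ext a
  apply j.injective
  have h1 := RingHom.congr_fun (comp_cbar j x) (i a)
  have h2 := RingHom.congr_fun (comp_cbar j (x.comp i)) a
  rw [ComplexEmbedding.conjugate_coe_eq] at h1 h2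
  exact h1.trans h2.symm

section

variable {V : Type} [Fintype V] [PartialOrder V] {F : V → Type}
  [∀ v, Field (F v)] [∀ v, NumberField (F v)] [∀ v, IsCMField (F v)]
  {inc : Inclusions F} {I : Type} [Fintype I] {w : I → V}

theorem agree_iff {C C' : Type} [Field C] [Field C'] (j : C →+* C') {v w : V} (x : F v →+* C)
    (y : F w →+* C) (u : V) : Agree inc (j.comp x) (j.comp y) u ↔ Agree inc x y u := by
  constructor
  · rintro ⟨h1, h2, h3⟩
    refine ⟨h1, h2, ?_⟩
    ext a
    exact j.injective (RingHom.congr_fun h3 a)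
  · rintro ⟨h1, h2, h3⟩
    refine ⟨h1, h2, ?_⟩
    rw [RingHom.comp_assoc, RingHom.comp_assoc, h3]

/-- There is no odd linear relation between the translates of the deviations. -/
theorem relation_zero {p : ℕ} [Fact p.Prime] {a : ℕ} (ν : PadicAlgCl p ≃+* ℂ)
    (hF : FreeForest F inc) {π : ∀ i, F (w i)} (hπ : IndependentNorms p a inc w π)
    {c : ∀ i, (F (w i) →+* ℂ) → ℚ}
    (hc : ∀ i φ, c i (ComplexEmbedding.conjugate φ) = - c i φ)
    (hrel : ∀ σ : ℂ ≃+* ℂ, ∑ i, ∑ φ : F (w i) →+* ℂ, (c i φ : ℝ) *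
      ww ν a (π i) ((σ : ℂ →+* ℂ).comp φ) = 0) (i₀ : I) (φ₀ : F (w i₀) →+* ℂ) :
    c i₀ φ₀ = 0 := by
  classical
  obtain ⟨L, _, _, j, hj⟩ := exists_galois F
  let X : V → Type := fun v => F v →+* L
  let res : ∀ u v, u ≤ v → X v → X u := fun u v h x => RingHom.comp x (inc u v h)
  obtain ⟨x₀, rfl⟩ := hj _ φ₀
  have hag : ∀ {v w : V} (x : X v) (y : X w) (u : V),
      Ag X res x y u ↔ Agree inc (j.comp x) (j.comp y) u := by
    intro v w x y u
    exact (agree_iff j x y u).symm
  refine vanish (X := X) (res := res) (G := L ≃ₐ[ℚ] L) (bar := fun v => cbar)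
    (fun v x => cbar_cbar x) (fun v x => cbar_ne x) (fun g v x => rfl) (fun g u v h x => rfl)
    (fun u v h x => cbar_res j _ _) hF.chain ?_ (fun v x y => MulAction.exists_smul_eq _ x y)
    ?_ ?_ w (fun i y => ww ν a (π i) (j.comp y)) ?_ ?_ (fun i y => c i (j.comp y)) ?_ ?_ i₀ x₀
  · intro u v w h h' x
    change (RingHom.comp x (inc v w h')).comp (inc u v h) = RingHom.comp x (inc u w (h.trans h'))
    rw [RingHom.comp_assoc, hF.comp u v w h h']
  · intro v w x y h1 h2
    obtain ⟨τ, ht1, ht2⟩ := hF.flip v w (j.comp x) (j.comp y) (fun u hu => h1 u ((hag x y u).2 hu))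
      (fun u hu => h2 u ((hag x (cbar y) u).2 (by rw [comp_cbar]; exact hu)))
    obtain ⟨g, hg⟩ := exists_lift j τ
    refine ⟨g, jcomp_inj j ?_, jcomp_inj j ?_⟩
    · rw [← lifts_comp j hg]
      exact ht1
    · rw [← lifts_comp j hg, comp_cbar]
      exact ht2
  · intro v w x y y' u₀ h1 h2
    obtain ⟨τ, ht1, ht2⟩ := hF.move v w (j.comp x) (j.comp y) (j.comp y') ⟨u₀, (hag x y u₀).1 h1⟩
      (fun u => by rw [← hag x y u, ← hag x y' u]; exact h2 u)
    obtain ⟨g, hg⟩ := exists_lift j τ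
    refine ⟨g, jcomp_inj j ?_, jcomp_inj j ?_⟩
    · rw [← lifts_comp j hg]
      exact ht1
    · rw [← lifts_comp j hg]
      exact ht2
  · intro i y
    rw [comp_cbar, ww_conj ν (hπ.weil i)]
  · intro i₁ δ hδ i u hu1 hu2
    have h1 := Fintype.linearIndependent_iff.1 (hπ.indep i₁)
      (fun x => δ x.1.1 x.1.2) (by
        funext τ
        obtain ⟨ψ, hψ⟩ := hj _ ((ν : PadicAlgCl p →+* ℂ).comp τ)
        have h2 := hδ ψ
        rw [Finset.sum_apply]
        refine Eq.trans ?_ h2
        have h3 : ∀ i u, (∑ y : X (w i), if Ag X res ψ y u then ww ν a (π i) (j.comp y) else 0) =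
            normDev p a inc (π i) u (w i₁) τ := by
          intro i u
          unfold normDev
          let e : X (w i) ≃ (F (w i) →+* PadicAlgCl p) :=
            (embEquiv j (hj (w i))).trans
              { toFun := fun φ => (ν.symm : ℂ →+* PadicAlgCl p).comp φ
                invFun := fun φ => (ν : PadicAlgCl p →+* ℂ).comp φ
                left_inv := fun φ => by
                  ext a
                  exact ν.apply_symm_apply _
                right_inv := fun φ => by
                  ext a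
                  exact ν.symm_apply_apply _ }
          refine Fintype.sum_equiv e _ _ fun y => ?_
          have h4 : (ν : PadicAlgCl p →+* ℂ).comp (e y) = j.comp y := by
            ext a
            exact ν.apply_symm_apply _
          rw [dev_eq ν, h4]
          refine if_congr ?_ rfl rfl
          rw [hag, hψ, ← h4]
          exact agree_iff _ _ _ _
        simp only [h3]
        let g : I × V → ℝ := fun x => (δ x.1 x.2 : ℝ) * normDev p a inc (π x.1) x.2 (w i₁) τ
        have h5 : ∑ x : {x : I × V // x.2 ≤ w i₁ ∧ x.2 ≤ w x.1}, g x.1 = ∑ x : I × V, g x := by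
          rw [← Finset.sum_subtype (Finset.univ.filter fun x : I × V =>
            x.2 ≤ w i₁ ∧ x.2 ≤ w x.1) (fun x => by simp) g]
          refine Finset.sum_subset (Finset.filter_subset _ _) fun x _ hx => ?_
          have hx' : ¬ (x.2 ≤ w i₁ ∧ x.2 ≤ w x.1) := fun h => hx (by simp [h])
          change (δ x.1 x.2 : ℝ) * normDev p a inc (π x.1) x.2 (w i₁) τ = 0
          rw [normDev, Finset.sum_eq_zero, mul_zero]
          intro ψ _
          exact if_neg (fun ⟨h1, h2, _⟩ => hx' ⟨h1, h2⟩)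
        rw [Fintype.sum_prod_type] at h5
        rw [← h5]
        refine Finset.sum_congr rfl fun x _ => ?_
        rw [Pi.smul_apply, Rat.smul_def]) ⟨(i, u), hu1, hu2⟩
    exact h1
  · intro i y
    rw [comp_cbar, hc]
  · intro g
    obtain ⟨σ, hσ⟩ := exists_lift' j g
    rw [← hrel σ]
    refine Finset.sum_congr rfl fun i _ => ?_
    refine Fintype.sum_equiv (embEquiv j (hj (w i))) _ _ fun y => ?_
    change _ = (c i (j.comp y) : ℝ) * ww ν a (π i) ((σ : ℂ →+* ℂ).comp (j.comp y))
    rw [lifts_comp j hσ]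

end

section

variable {p : ℕ} [Fact p.Prime] {a : ℕ} {I : Type} [Fintype I] {K : I → Type}
  [∀ i, Field (K i)] [∀ i, NumberField (K i)] [∀ i, IsCMField (K i)] {π : ∀ i, K i}

/-- A multiplicative relation between Weil numbers gives an odd linear relation between the
translates of their deviations. -/
theorem odd_relation (ν : PadicAlgCl p ≃+* ℂ)
    (hw : ∀ i, π i * IsCMField.complexConj (K i) (π i) = (p : K i) ^ a) {r : ℤ}
    {n : (Σ i, (K i →+* ℂ)) → ℤ} (hrel : ∏ x, (x.2 (π x.1)) ^ n x = (((p ^ a : ℕ) : ℂ)) ^ r)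
    (σ : ℂ ≃+* ℂ) : ∑ i, ∑ φ : K i →+* ℂ,
      ((n ⟨i, φ⟩ - n ⟨i, ComplexEmbedding.conjugate φ⟩ : ℤ) : ℝ) *
        ww ν a (π i) ((σ : ℂ →+* ℂ).comp φ) = 0 := by
  classical
  have hp0 : ∀ i, (p : K i) ≠ 0 := fun i => Nat.cast_ne_zero.2 (Fact.out : p.Prime).ne_zero
  have hπ0 : ∀ i, π i ≠ 0 := by
    intro i h0
    have h1 := hw i
    rw [h0, zero_mul] at h1
    exact pow_ne_zero a (hp0 i) h1.symm
  let Y : Type := Σ i, (K i →+* ℂ)
  let inv : Y → Y := fun y => ⟨y.1, ComplexEmbedding.conjugate y.2⟩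
  have hinv : ∀ y : Y, inv (inv y) = y := by
    rintro ⟨x, φ⟩
    simp only [inv, conj_conj']
  let u : (ℂ ≃+* ℂ) → Y → ℝ := fun σ y => ww ν a (π y.1) ((σ : ℂ →+* ℂ).comp y.2)
  have hu : ∀ σ y, u σ (inv y) = - u σ y := by
    rintro σ ⟨x, φ⟩
    change ww ν a (π x) ((σ : ℂ →+* ℂ).comp (ComplexEmbedding.conjugate φ)) = _
    rw [conj_move, ww_conj ν (hw x)]
  -- the relation
  have hlog : ∀ σ : ℂ ≃+* ℂ, ∑ y : Y, (n y : ℝ) * u σ y = 2 * (r * a) - a * ∑ y : Y, (n y : ℝ) := by
    intro σ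
    have h1 := congrArg (fun x => lg ν (σ x)) hrel
    simp only [map_prod, map_zpow₀, lg_zpow] at h1
    rw [lg_prod _ _ _ (fun y _ => (_root_.map_ne_zero σ).2 ((_root_.map_ne_zero _).2
      (hπ0 _)))] at h1
    have h2 : lg ν (σ (((p ^ a : ℕ) : ℂ))) = -a := by
      rw [map_natCast]
      push_cast
      rw [lg_pow, lg_p]
      ring
    rw [h2] at h1
    have h3 : ∑ y : Y, (n y : ℝ) * u σ y =
        ∑ y : Y, (-(2 * ((n y : ℝ) * lg ν (σ (y.2 (π y.1))))) - a * (n y : ℝ)) := by
      refine Finset.sum_congr rfl fun y _ => ?_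
      have h4 : u σ y = -(2 * lg ν (σ (y.2 (π y.1)))) - a := by
        change 2 * (-(lg ν (σ (y.2 (π y.1))))) - (a : ℝ) = _
        ring
      rw [h4]
      ring
    rw [h3, Finset.sum_sub_distrib, Finset.sum_neg_distrib, ← Finset.mul_sum, ← Finset.mul_sum, h1]
    ring
  have hc0 : 2 * ((r : ℝ) * a) - a * ∑ y : Y, (n y : ℝ) = 0 := by
    have h1 := hlog (RingEquiv.refl ℂ)
    have h2 := hlog (starRingAut : ℂ ≃+* ℂ)
    have h3 : ∀ y : Y, u (starRingAut : ℂ ≃+* ℂ) y = - u (RingEquiv.refl ℂ) y := by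
      rintro ⟨x, φ⟩
      change ww ν a (π x) (ComplexEmbedding.conjugate φ) = - ww ν a (π x) φ
      rw [ww_conj ν (hw x)]
    rw [← h1] at h2
    simp only [h3, mul_neg, Finset.sum_neg_distrib] at h2
    linarith
  have hF : ∑ y : Y, ((n y - n (inv y) : ℤ) : ℝ) * u σ y = 0 := by
    have h2 : ∑ y : Y, (n (inv y) : ℝ) * u σ y = ∑ y : Y, -((n y : ℝ) * u σ y) := by
      refine Finset.sum_nbij' inv inv (fun _ _ => Finset.mem_univ _)
        (fun _ _ => Finset.mem_univ _) (fun y _ => hinv y) (fun y _ => hinv y) (fun y _ => ?_)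
      rw [hu]
      ring
    push_cast
    simp only [sub_mul, Finset.sum_sub_distrib]
    rw [h2, Finset.sum_neg_distrib, hlog, hc0]
    ring
  rw [Fintype.sum_sigma] at hF
  exact hF

end

section

variable {V : Type} [Fintype V] [PartialOrder V] {F : V → Type}
  [∀ v, Field (F v)] [∀ v, NumberField (F v)] [∀ v, IsCMField (F v)]
  {inc : Inclusions F} {I : Type} [Fintype I] {w : I → V}

theorem angle_of_forest {p : ℕ} [Fact p.Prime] {a : ℕ} (hF : FreeForest F inc)
    {π : ∀ i, F (w i)} (hπ : IndependentNorms p a inc w π) :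
    MaximalAngleRank (F := fun i => F (w i)) (p ^ a) π := by
  obtain ⟨ν⟩ := Pool.Agent.R401.Iso.exists_iso p
  intro r n hrel i φ
  have h1 := relation_zero ν hF hπ
    (c := fun i φ => ((n ⟨i, φ⟩ - n ⟨i, ComplexEmbedding.conjugate φ⟩ : ℤ) : ℚ)) ?_ ?_ i φ
  · have h2 : n ⟨i, φ⟩ - n ⟨i, ComplexEmbedding.conjugate φ⟩ = 0 := by exact_mod_cast h1
    exact sub_eq_zero.1 h2
  · intro i φ
    simp only [conj_conj']
    push_cast
    ring
  · intro σ
    rw [← odd_relation (K := fun i => F (w i)) ν hπ.weil hrel σ]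
    refine Finset.sum_congr rfl fun i _ => Finset.sum_congr rfl fun φ _ => ?_
    rw [Rat.cast_intCast]

end

end Pool.Agent.Run7.h301.TW
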