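import Mathlib
import Pool.Agent.Run7.h142.TF.Props
import Pool.Agent.Run7.h301.TW.Defs
import Pool.Agent.Run7.h301.TW.BoundDefs

/-!
# Weil numbers in a forest of CM fields: the statements (helper301)
-/

set_option autoImplicit false

namespace Pool.Agent.Run7.h301.TW

open NumberField Module Polynomial Pool.Agent.H204R3.CM Pool.Agent.Y1.CT
  Pool.Agent.Run7.h142.TF

/-- The property holds for all Weil numbers `π i` for `p ^ a` in the fields `F (w i)` of a free
forest of CM fields, if their norms are independent; `f i` is any monic polynomial whose complex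
roots are conjugates of `π i`. -/
def HoldsInForests (P : Prp) : Prop :=
  ∀ (p : ℕ) [Fact p.Prime] (a : ℕ) (V : Type) [Fintype V] [PartialOrder V] (F : V → Type)
    [∀ v, Field (F v)] [∀ v, NumberField (F v)] [∀ v, IsCMField (F v)]
    (inc : Inclusions F) (I : Type) [Fintype I] (w : I → V) (π : ∀ i, F (w i))
    (f : I → ℤ[X]), 0 < a → FreeForest F inc → IndependentNorms p a inc w π →
      (∀ i, IsPolyOf (π i) (f i)) → P I (fun i => F (w i)) (p ^ a) f

/-- The property holds for all Weil numbers `π i` which generate the fields `F (w i)` of a free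
forest of CM fields and have the slope types `Φ i`, with the weights `M i`, except for at most the
proportion `exceptional F w` of the families `Φ` of CM types of the fields `F (w i)`. -/
def HoldsForMostForestTypes (P : Prp) : Prop :=
  ∀ (p : ℕ) [Fact p.Prime] (ν : PadicAlgCl p ≃+* ℂ) (V : Type) [Fintype V] [PartialOrder V]
    (F : V → Type) [∀ v, Field (F v)] [∀ v, NumberField (F v)] [∀ v, IsCMField (F v)]
    (inc : Inclusions F) (r : ℕ) (w : Fin r → V)
    (M : ∀ i, (F (w i) →+* ℂ) → ℤ), FreeForest F inc → (∀ i φ, M i φ ≠ 0) →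
      ({Φ : ∀ i, Set (F (w i) →+* ℂ) | (∀ i, IsCMType (Φ i)) ∧
        ¬ ForAllTypes ν (fun i => F (w i)) M (P (Fin r) (fun i => F (w i))) Φ}.ncard : ℝ) ≤
          exceptional F w * ∏ i, 2 ^ half (F (w i))

end Pool.Agent.Run7.h301.TW
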