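import Mathlib
import Pool.Agent.Run7.h142.TF.Angle
import Pool.Agent.Run7.h301.TW.Angle
import Pool.Agent.Run7.h301.TW.Dep
import Pool.Agent.Y1.CT.TypeDefs

/-!
# Weil numbers whose slope types have independent norms (helper301)
-/

set_option autoImplicit false
set_option linter.unusedSectionVars false

namespace Pool.Agent.Run7.h301.TW

open Finset Module NumberField Pool.Agent.TH170.CM Pool.Agent.H204R3.CM Pool.Agent.Run7.h142.JT
  Pool.Agent.Run7.h142.TF Pool.Agent.Y1.CT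

variable {V : Type} [Fintype V] [PartialOrder V] {F : V → Type}
  [∀ v, Field (F v)] [∀ v, NumberField (F v)] [∀ v, IsCMField (F v)]
  {inc : Inclusions F} {r : ℕ} {w : Fin r → V} {p : ℕ} [Fact p.Prime]
  {ν : PadicAlgCl p ≃+* ℂ}

theorem ww_of_type {E : Type} [Field E] [NumberField E] [IsCMField E] {a : ℕ}
    {M : (E →+* ℂ) → ℤ} {Φ : Set (E →+* ℂ)} {x : E} {κ : ℝ}
    (h : Pool.Agent.TH170.GS.HasSlopes ν M Φ a κ x) (φ : E →+* ℂ) :
    ww ν a x φ = κ * (((M φ : ℚ) * sgnF Φ φ : ℚ) : ℝ) := by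
  have h1 := h φ
  change ww ν a x φ = _ at h1
  rw [h1]
  unfold sgnF
  split_ifs
  · push_cast
    ring
  · push_cast
    ring

theorem weight_conj {E : Type} [Field E] [NumberField E] [IsCMField E] {a : ℕ}
    {M : (E →+* ℂ) → ℤ} {Φ : Set (E →+* ℂ)} (hΦ : IsCMType Φ) {x : E} (hx : HasType ν a M Φ x)
    (φ : E →+* ℂ) : M (ComplexEmbedding.conjugate φ) = M φ := by
  classical
  obtain ⟨κ, hκ, hsl⟩ := hx.slopes
  have h1 := ww_conj ν hx.weil φ
  rw [ww_of_type hsl, ww_of_type hsl] at h1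
  have h2 : sgnF Φ (ComplexEmbedding.conjugate φ) = - sgnF Φ φ := by
    unfold sgnF
    have h3 := hΦ φ
    by_cases hx : φ ∈ Φ
    · rw [if_pos hx, if_neg (h3.1 hx)]
    · have h4 : ComplexEmbedding.conjugate φ ∈ Φ := by
        by_contra hcon
        exact hx (h3.2 hcon)
      rw [if_neg hx, if_pos h4, neg_neg]
  rw [h2, ← mul_neg] at h1
  have h3 := mul_left_cancel₀ hκ h1
  have h4 : ((M (ComplexEmbedding.conjugate φ) : ℚ)) * - sgnF Φ φ = -((M φ : ℚ) * sgnF Φ φ) := by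
    exact_mod_cast h3
  have h5 : sgnF Φ φ ≠ 0 := by
    rcases sgnF_sign Φ φ with h | h <;> rw [h] <;> norm_num
  have h6 : ((M (ComplexEmbedding.conjugate φ) : ℚ) - M φ) * sgnF Φ φ = 0 := by
    linarith
  rcases mul_eq_zero.1 h6 with h7 | h7
  · have h8 := sub_eq_zero.1 h7
    exact_mod_cast h8
  · exact absurd h7 h5

/-- Good families of slope types have independent norms. -/
theorem indepNorms_of_types (hF : FreeForest F inc) {M : ∀ i, (F (w i) →+* ℂ) → ℤ}
    {Φ : ∀ i, Set (F (w i) →+* ℂ)} (hΦ : ∀ i, IsCMType (Φ i))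
    (hgood : ∀ i u (h : u ≤ w i), tnorm (inc u (w i) h) (M i) (Φ i) ∉ prev inc M i u Φ)
    {a : ℕ} {π : ∀ i, F (w i)} (hπ : ∀ i, HasType ν a (M i) (Φ i) (π i)) :
    IndependentNorms p a inc w π := by
  classical
  choose κ hκ hsl using fun i => (hπ i).slopes
  refine ⟨fun i => (hπ i).weil, fun i₀ => ?_⟩
  have h1 := indep_of_good hF.chain hF.comp (fun i x => weight_conj (hΦ i) (hπ i) x) hΦ hgood i₀
  have h3 := linInd_scaled h1 (c := fun x => κ x.1.1) (fun x => hκ _)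
  rw [Fintype.linearIndependent_iff] at h3 ⊢
  intro q hq
  refine h3 q ?_
  funext y
  have h4 := congrFun hq ((ν.symm : ℂ →+* PadicAlgCl p).comp y)
  rw [Finset.sum_apply] at h4 ⊢
  refine Eq.trans ?_ h4
  refine Finset.sum_congr rfl fun x _ => ?_
  rw [Pi.smul_apply, Pi.smul_apply]
  congr 1
  unfold normDev tnorm
  rw [Rat.cast_sum, Finset.mul_sum]
  let e : (F (w x.1.1) →+* ℂ) ≃ (F (w x.1.1) →+* PadicAlgCl p) :=
    { toFun := fun φ => (ν.symm : ℂ →+* PadicAlgCl p).comp φ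
      invFun := fun φ => (ν : PadicAlgCl p →+* ℂ).comp φ
      left_inv := fun φ => by
        ext a
        exact ν.apply_symm_apply _
      right_inv := fun φ => by
        ext a
        exact ν.symm_apply_apply _ }
  refine Fintype.sum_equiv e _ _ fun φ => ?_
  have h5 : Agree inc ((ν.symm : ℂ →+* PadicAlgCl p).comp y) (e φ) x.1.2 ↔
      φ.comp (inc x.1.2 (w x.1.1) x.2.2) = y.comp (inc x.1.2 (w i₀) x.2.1) := by
    change Agree inc ((ν.symm : ℂ →+* PadicAlgCl p).comp y)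
      ((ν.symm : ℂ →+* PadicAlgCl p).comp φ) x.1.2 ↔ _
    rw [agree_iff]
    constructor
    · rintro ⟨_, _, h⟩
      exact h.symm
    · intro h
      exact ⟨x.2.1, x.2.2, h.symm⟩
  have h6 : dev p a (π x.1.1) (e φ) = ww ν a (π x.1.1) φ := by
    rw [dev_eq ν]
    congr 1
    ext a
    exact ν.apply_symm_apply _
  by_cases h7 : φ.comp (inc x.1.2 (w x.1.1) x.2.2) = y.comp (inc x.1.2 (w i₀) x.2.1)
  · rw [if_pos h7, if_pos (h5.2 h7), h6, ww_of_type (hsl _)]
  · rw [if_neg h7, if_neg (fun h => h7 (h5.1 h)), Rat.cast_zero, mul_zero]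

end Pool.Agent.Run7.h301.TW
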