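import Mathlib
import Pool.Agent.Run7.h142.TF.Main
import Pool.Agent.Run7.h301.TW.Angle
import Pool.Agent.Run7.h301.TW.Props
import Pool.Agent.Run7.h301.TW.TypesNorm

/-!
# Weil numbers in a forest of CM fields: main lemmas (helper301)
-/

set_option autoImplicit false
set_option linter.unusedSectionVars false

namespace Pool.Agent.Run7.h301.TW

open NumberField Module Polynomial Pool.Agent.H204R3.CM Pool.Agent.H977R3.CM
  Pool.Agent.TH170 Pool.Agent.Y1.CT Pool.Agent.Y137.MV Pool.Agent.Run7.h142.JT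
  Pool.Agent.Run7.h142.TF

section

variable {V : Type} [Fintype V] [PartialOrder V] {F : V → Type}
  [∀ v, Field (F v)] [∀ v, NumberField (F v)] [∀ v, IsCMField (F v)]
  {inc : Inclusions F} {p : ℕ} [Fact p.Prime] {a : ℕ}

theorem noRel_of_norms {I : Type} [Fintype I] {w : I → V} (hF : FreeForest F inc)
    {π : ∀ i, F (w i)} (hπ : IndependentNorms p a inc w π) {f : I → ℤ[X]}
    (hf : ∀ i, IsPolyOf (π i) (f i)) :
    NoRel f (p ^ a) (Pool.Agent.Y1.CT.Unrelated (fun i => F (w i))) :=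
  ⟨fun i => (hf i).1, unrelated_one _, fun s hs ρ hρ =>
    exactPair_of_angle (K := fun i => F (w i)) (angle_of_forest hF hπ) hπ.weil f hf s hs ρ hρ⟩

/-- All but the exceptional proportion of the families of slope types have a property that follows
from the maximality of the angle rank. -/
theorem ncard_forest_angle (ν : PadicAlgCl p ≃+* ℂ) {r : ℕ} {w : Fin r → V}
    (hF : FreeForest F inc) {M : ∀ i, (F (w i) →+* ℂ) → ℤ} (hM : ∀ i φ, M i φ ≠ 0)
    (Q : (∀ i, Set (F (w i) →+* ℂ)) → Prop)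
    (hQ : ∀ Φ, (∀ (a : ℕ) (π : ∀ i, F (w i)), 0 < a →
      (∀ i, Pool.Agent.Y1.CT.HasType ν a (M i) (Φ i) (π i)) →
        MaximalAngleRank (F := fun i => F (w i)) (p ^ a) π) → Q Φ) :
    ({Φ : ∀ i, Set (F (w i) →+* ℂ) | (∀ i, IsCMType (Φ i)) ∧ ¬ Q Φ}.ncard : ℝ) ≤
      exceptional F w * ∏ i, 2 ^ half (F (w i)) := by
  refine ncard_bad hF.chain hF.comp hM Q fun Φ hΦ hgood => hQ Φ fun a π _ hπ => ?_
  exact angle_of_forest hF (indepNorms_of_types hF hΦ hgood hπ)

/-- A property that follows from the absence of relations (and the absolute values). -/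
theorem holdsInForests {P : Prp} (hP : ∀ (I : Type) (K : I → Type) [∀ i, Field (K i)] (q : ℕ)
    (f : I → ℤ[X]), 1 < q → (∀ i (z : ℂ), aeval z (f i) = 0 → ‖z‖ ^ 2 = (q : ℝ)) →
      NoRel f q (Pool.Agent.Y1.CT.Unrelated K) → P I K q f) : HoldsInForests P := by
  intro p _ a V _ _ F _ _ _ inc I _ w π f ha hF hπ hf
  exact hP _ _ _ _ (Nat.one_lt_pow ha.ne' (Fact.out : p.Prime).one_lt)
    (fun i z hz => norm_root (hπ.weil i) (hf i) hz) (noRel_of_norms hF hπ hf)

theorem holdsForMostForestTypes {P : Prp} (hP : ∀ (I : Type) (K : I → Type) [∀ i, Field (K i)]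
    (q : ℕ) (f : I → ℤ[X]), 1 < q → (∀ i (z : ℂ), aeval z (f i) = 0 → ‖z‖ ^ 2 = (q : ℝ)) →
      NoRel f q (Pool.Agent.Y1.CT.Unrelated K) → P I K q f) : HoldsForMostForestTypes P := by
  intro p _ ν V _ _ F _ _ _ inc r w M hF hM
  refine ncard_forest_angle ν hF hM _ ?_
  intro Φ h a π f ha hπ hf
  have hw : ∀ i, π i * IsCMField.complexConj (F (w i)) (π i) = (p : F (w i)) ^ a :=
    fun i => (hπ i).weil
  refine hP _ _ (p ^ a) f (Nat.one_lt_pow ha.ne' (Fact.out : p.Prime).one_lt)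
    (fun i z hz => norm_root (hw i) (hf i) hz)
    ⟨fun i => (hf i).1, unrelated_one _, fun s hs ρ hρ => ?_⟩
  exact exactPair_of_angle (K := fun i => F (w i)) (h a π ha hπ) hw f hf s hs ρ hρ

end

end Pool.Agent.Run7.h301.TW
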