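import Mathlib
import Pool.Agent.TH170.FT.CommonDefs
import Pool.Agent.TH170.FT.Hodge
import Pool.Agent.Y1.CT.TypeDefs
import Pool.Agent.Run7.h301.TW.Defs
import Pool.Agent.Run7.h301.TW.BoundDefs

/-!
# Frobenius elements with Weil numbers in a forest of CM fields: the statements (helper301)
-/

set_option autoImplicit false

namespace Pool.Agent.Run7.h301.TW

open NumberField Module Pool.Agent.H204R3.CM Pool.Agent.H204R3.GP Pool.Agent.TH170

/-- A property `P p a π` of numbers `π i` of fields `K i`. -/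
abbrev FPrp : Type 1 :=
  ∀ (p : ℕ) [Fact p.Prime] (_ : ℕ) (I : Type) [Fintype I] (K : I → Type) [∀ i, Field (K i)]
    [∀ i, NumberField (K i)] (_ : ∀ i, K i), Prop

/-- The property holds for all Weil numbers `π i` for `p ^ a` in the fields `F (w i)` of a free
forest of CM fields, if their norms are independent. -/
def FrobeniusInForests (P : FPrp) : Prop :=
  ∀ (p : ℕ) [Fact p.Prime] (a : ℕ) (V : Type) [Fintype V] [PartialOrder V] (F : V → Type)
    [∀ v, Field (F v)] [∀ v, NumberField (F v)] [∀ v, IsCMField (F v)]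
    (inc : Inclusions F) (I : Type) [Fintype I] (w : I → V) (π : ∀ i, F (w i)), 0 < a →
    FreeForest F inc → IndependentNorms p a inc w π → P p a I (fun i => F (w i)) π

/-- The property holds for all Weil numbers `π i` which generate the fields `F (w i)` of a free
forest of CM fields and have the slope types `Φ i`, with the weights `M i`, except for at most the
proportion `exceptional F w` of the families `Φ` of CM types of the fields `F (w i)`. -/
def FrobeniusForMostForestTypes (P : FPrp) : Prop :=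
  ∀ (p : ℕ) [Fact p.Prime] (ν : PadicAlgCl p ≃+* ℂ) (V : Type) [Fintype V] [PartialOrder V]
    (F : V → Type) [∀ v, Field (F v)] [∀ v, NumberField (F v)] [∀ v, IsCMField (F v)]
    (inc : Inclusions F) (r : ℕ) (w : Fin r → V)
    (M : ∀ i, (F (w i) →+* ℂ) → ℤ), FreeForest F inc → (∀ i φ, M i φ ≠ 0) →
      ({Φ : ∀ i, Set (F (w i) →+* ℂ) | (∀ i, IsCMType (Φ i)) ∧
        ¬ ∀ (a : ℕ) (π : ∀ i, F (w i)), 0 < a →
          (∀ i, Pool.Agent.Y1.CT.HasType ν a (M i) (Φ i) (π i)) →
            P p a (Fin r) (fun i => F (w i)) π}.ncard : ℝ) ≤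
          exceptional F w * ∏ i, 2 ^ half (F (w i))

/-- The Mumford-Tate conjecture in the strong form (all Tate classes in the tensor powers of `H_1`
are linear combinations of products of Hodge classes of degree two) for all abelian varieties with
a Frobenius element whose characteristic polynomial is the product of the minimal polynomials of
the `π i`. -/
def MumfordTateFor : FPrp := fun p _ a _I _ _K _ _ π =>
  ∀ (ℓ : ℕ) [Fact ℓ.Prime] (W T V Γ : Type) [AddCommGroup W] [Module ℚ W]
    [AddCommGroup T] [Module ℂ T] [AddCommGroup V] [Module ℚ_[ℓ] V] [FiniteDimensional ℚ_[ℓ] V]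
    [Group Γ] (per : W →+ T) (ω₀ : W →ₗ[ℚ] W →ₗ[ℚ] ℚ) (comp : W →+ V)
    (ρ : Representation ℚ_[ℓ] Γ V) (χ : Γ →* ℚ_[ℓ]) (ω : V →ₗ[ℚ_[ℓ]] V →ₗ[ℚ_[ℓ]] ℚ_[ℓ]),
    FT.IsRealization per ω₀ comp ρ χ ω → FT.HasFrobenius ρ χ p a π →
      MumfordTateStrong per comp ρ χ

/-- All Hodge classes in the tensor powers of `H_1` are linear combinations of products of Hodge
classes of degree two, for all abelian varieties with a Frobenius element whose characteristic
polynomial is the product of the minimal polynomials of the `π i`. -/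
def HodgeFor : FPrp := fun p _ a _I _ _K _ _ π =>
  ∀ (W T Γ : Type) [AddCommGroup W] [Module ℚ W] [FiniteDimensional ℚ W] [AddCommGroup T]
    [Module ℂ T] [Group Γ] (per : W →+ T) (ω₀ : W →ₗ[ℚ] W →ₗ[ℚ] ℚ) (ℓ : ℕ) [Fact ℓ.Prime]
    (D : FT.GaloisData per ω₀ Γ ℓ), FT.HasFrobenius D.ρ D.χ p a π → FT.HodgeInDegreeTwo per

end Pool.Agent.Run7.h301.TW
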