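import Mathlib
import Pool.Agent.Y137.MV.Defs
import Pool.Agent.Run7.h142.JT.Min

/-!
# Numbers of maximal angle rank generate the fields (helper301)
-/

set_option autoImplicit false
set_option linter.unusedSectionVars false

namespace Pool.Agent.Run7.h301.TW

open NumberField Module IntermediateField Pool.Agent.Y137.MV Pool.Agent.Run7.h142.JT

theorem ne_zero_of_weil {I : Type} {K : I → Type} [∀ i, Field (K i)]
    [∀ i, NumberField (K i)] [∀ i, IsCMField (K i)] {p : ℕ} [Fact p.Prime] {a : ℕ} {π : ∀ i, K i}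
    (hw : ∀ i, π i * IsCMField.complexConj (K i) (π i) = (p : K i) ^ a) (i : I) : π i ≠ 0 := by
  intro h0
  have h1 := hw i
  rw [h0, zero_mul] at h1
  exact pow_ne_zero a (Nat.cast_ne_zero.2 (Fact.out : p.Prime).ne_zero) h1.symm

theorem adjoin_of_angle {I : Type} [Fintype I] {K : I → Type} [∀ i, Field (K i)]
    [∀ i, NumberField (K i)] [∀ i, IsCMField (K i)] {q : ℕ} {π : ∀ i, K i}
    (h0 : ∀ i, π i ≠ 0) (hang : MaximalAngleRank q π) (i : I) : ℚ⟮π i⟯ = ⊤ := by
  classical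
  rw [Field.primitive_element_iff_algHom_eq_of_eval' ℚ ℂ (fun x => IsAlgClosed.splits _)]
  intro φ ψ h
  change φ (π i) = ψ (π i) at h
  by_contra hne
  have hne' : (φ : K i →+* ℂ) ≠ (ψ : K i →+* ℂ) := by
    intro h4
    apply hne
    ext x
    exact RingHom.congr_fun h4 x
  let x : Σ i, (K i →+* ℂ) := ⟨i, (φ : K i →+* ℂ)⟩
  let y : Σ i, (K i →+* ℂ) := ⟨i, (ψ : K i →+* ℂ)⟩
  have hxy : x ≠ y := by
    intro h4
    exact hne' (eq_of_heq (Sigma.mk.inj h4).2)
  let n : (Σ i, (K i →+* ℂ)) → ℤ := fun z => (if z = x then 1 else 0) - (if z = y then 1 else 0)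
  have hφ0 : φ (π i) ≠ 0 := (_root_.map_ne_zero φ).2 (h0 i)
  have hprod : ∏ z : Σ i, (K i →+* ℂ), (z.2 (π z.1)) ^ n z = (q : ℂ) ^ (0 : ℤ) := by
    rw [zpow_zero, Finset.prod_eq_mul x y hxy]
    · have e1 : n x = 1 := by
        simp only [n, if_true, if_neg hxy, sub_zero]
      have e2 : n y = -1 := by
        simp only [n, if_true, if_neg hxy.symm, zero_sub]
      rw [e1, e2]
      change (φ (π i)) ^ (1 : ℤ) * (ψ (π i)) ^ (-1 : ℤ) = 1
      rw [← h, zpow_one, zpow_neg_one, mul_inv_cancel₀ hφ0]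
    · intro z _ hz
      have e1 : n z = 0 := by
        simp only [n, if_neg hz.1, if_neg hz.2, sub_zero]
      rw [e1, zpow_zero]
    · intro hx
      exact absurd (Finset.mem_univ _) hx
    · intro hx
      exact absurd (Finset.mem_univ _) hx
  have h1 := hang 0 n hprod i (φ : K i →+* ℂ)
  have e1 : n ⟨i, (φ : K i →+* ℂ)⟩ = 1 := by
    change n x = 1
    simp only [n, if_true, if_neg hxy, sub_zero]
  have hcx : (⟨i, ComplexEmbedding.conjugate (φ : K i →+* ℂ)⟩ : Σ i, (K i →+* ℂ)) ≠ x := by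
    intro h4
    exact conj_ne _ (eq_of_heq (Sigma.mk.inj h4).2)
  rw [e1] at h1
  simp only [n, if_neg hcx, zero_sub] at h1
  split_ifs at h1 <;> omega

end Pool.Agent.Run7.h301.TW
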