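import Mathlib
import Pool.Agent.TH170.FT.MT
import Pool.Agent.Y137.MV.Criteria
import Pool.Agent.Run7.h301.TW.Main
import Pool.Agent.Run7.h301.TW.Gen
import Pool.Agent.Run7.h301.TW.FrobDefs

/-!
# Abelian varieties with one Frobenius element with Weil numbers in a forest of CM fields (helper301)
-/

set_option autoImplicit false

namespace Pool.Agent.Run7.h301.TW

open NumberField Module Pool.Agent.H204R3.GP Pool.Agent.H204R3.CM Pool.Agent.TH170
  Pool.Agent.Y137.MV

theorem mumfordTate_of_angle {p : ℕ} [Fact p.Prime] {a : ℕ} {I : Type} [Fintype I] {K : I → Type}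
    [∀ i, Field (K i)] [∀ i, NumberField (K i)] [∀ i, IsCMField (K i)] {π : ∀ i, K i} (ha : 0 < a)
    (hweil : ∀ i, π i * IsCMField.complexConj (K i) (π i) = (p : K i) ^ a)
    (hang : MaximalAngleRank (p ^ a) π) : MumfordTateFor p a I K π := by
  intro ℓ _ W T V Γ _ _ _ _ _ _ _ _ per ω₀ comp ρ χ ω hR hF
  obtain ⟨L, _, _, j, h⟩ := exists_galois K
  exact FT.mumfordTate ha (adjoin_of_angle (ne_zero_of_weil hweil) hang) hweil j h
    (neat_of_angle j hang) hR hF

theorem hodge_of_angle {p : ℕ} [Fact p.Prime] {a : ℕ} {I : Type} [Fintype I] {K : I → Type}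
    [∀ i, Field (K i)] [∀ i, NumberField (K i)] [∀ i, IsCMField (K i)] {π : ∀ i, K i} (ha : 0 < a)
    (hweil : ∀ i, π i * IsCMField.complexConj (K i) (π i) = (p : K i) ^ a)
    (hang : MaximalAngleRank (p ^ a) π) : HodgeFor p a I K π := by
  intro W T Γ _ _ _ _ _ _ per ω₀ ℓ _ D hF
  exact FT.hodge_of_mumfordTate D
    (mumfordTate_of_angle ha hweil hang ℓ _ _ _ _ _ _ _ _ _ _ D.realization hF)

theorem frobeniusInForests {P : FPrp} (hP : ∀ (p : ℕ) [Fact p.Prime] (a : ℕ) (I : Type)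
    [Fintype I] (K : I → Type) [∀ i, Field (K i)] [∀ i, NumberField (K i)]
    [∀ i, IsCMField (K i)] (π : ∀ i, K i), 0 < a →
    (∀ i, π i * IsCMField.complexConj (K i) (π i) = (p : K i) ^ a) →
      MaximalAngleRank (p ^ a) π → P p a I K π) : FrobeniusInForests P :=
  fun p _ a _ _ _ F _ _ _ _ I _ w π ha hF hπ =>
    hP p a I (fun i => F (w i)) π ha hπ.weil (angle_of_forest hF hπ)

theorem frobeniusForMost {P : FPrp} (hP : ∀ (p : ℕ) [Fact p.Prime] (a : ℕ) (I : Type)
    [Fintype I] (K : I → Type) [∀ i, Field (K i)] [∀ i, NumberField (K i)]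
    [∀ i, IsCMField (K i)] (π : ∀ i, K i), 0 < a →
    (∀ i, π i * IsCMField.complexConj (K i) (π i) = (p : K i) ^ a) →
      MaximalAngleRank (p ^ a) π → P p a I K π) : FrobeniusForMostForestTypes P := by
  intro p _ ν V _ _ F _ _ _ inc r w M hF hM
  refine ncard_forest_angle ν hF hM _ ?_
  intro Φ h a π ha hπ
  exact hP p a (Fin r) (fun i => F (w i)) π ha (fun i => (hπ i).weil) (h a π ha hπ)

end Pool.Agent.Run7.h301.TW
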