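import Mathlib
import Pool.Agent.Run7.h301.TW.Defs

/-!
# Functions with independent norms in a forest of fields (helper301)
-/

set_option autoImplicit false

namespace Pool.Agent.Run7.h301.TW

open Classical in
/-- The norms of the functions `D i` of the complex embeddings of `F (w i)` are independent: for each
`i₀` the norms of all the `D i` to all the fields `F u` with `u ≤ w i₀`, `u ≤ w i` are linearly
independent, as functions of the embeddings `φ` of `F (w i₀)`; the norm of `D i` to `F u` is the sum
of the values of `D i` at the embeddings that agree with `φ` on `F u`. -/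
def IndependentFunctions {V : Type} [PartialOrder V] {F : V → Type} [∀ v, Field (F v)]
    [∀ v, NumberField (F v)] (inc : Inclusions F) {I : Type} (w : I → V)
    (D : ∀ i, (F (w i) →+* ℂ) → ℚ) : Prop :=
  ∀ i₀, LinearIndependent ℚ fun x : {x : I × V // x.2 ≤ w i₀ ∧ x.2 ≤ w x.1} =>
    fun φ : F (w i₀) →+* ℂ => ∑ ψ : F (w x.1.1) →+* ℂ,
      if Agree inc φ ψ x.1.2 then D x.1.1 ψ else 0

end Pool.Agent.Run7.h301.TW
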