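import Mathlib
import Pool.Agent.Run7.h142.JT.Min
import Pool.Agent.Run7.h301.TW.Avg
import Pool.Agent.Run7.h301.TW.Defs
import Pool.Agent.Run7.h301.TW.Angle

/-!
# Odd linear relations between the translates of functions with independent norms (helper301)
-/

set_option autoImplicit false
set_option linter.unusedSectionVars false

namespace Pool.Agent.Run7.h301.TW

open NumberField Module Pool.Agent.H204R3.CM Pool.Agent.H194R3.CM
  Pool.Agent.W527 Pool.Agent.Run7.h142.JT

variable {V : Type} [Fintype V] [PartialOrder V] {F : V → Type}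
  [∀ v, Field (F v)] [∀ v, NumberField (F v)] [∀ v, IsCMField (F v)]
  {inc : Inclusions F} {I : Type} [Fintype I] {w : I → V}

open Classical in
/-- There is no odd linear relation between the translates of odd functions with independent
norms. -/
theorem trivial_forest (hF : FreeForest F inc) (D : ∀ i, (F (w i) →+* ℂ) → ℝ)
    (hD : ∀ i φ, D i (ComplexEmbedding.conjugate φ) = - D i φ)
    (hli : ∀ i₀, LinearIndependent ℚ fun x : {x : I × V // x.2 ≤ w i₀ ∧ x.2 ≤ w x.1} =>
      fun φ : F (w i₀) →+* ℂ => ∑ ψ : F (w x.1.1) →+* ℂ,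
        if Agree inc φ ψ x.1.2 then D x.1.1 ψ else 0)
    (c : ∀ i, (F (w i) →+* ℂ) → ℚ)
    (hc : ∀ i φ, c i (ComplexEmbedding.conjugate φ) = - c i φ)
    (hrel : ∀ σ : ℂ ≃+* ℂ, ∑ i, ∑ φ : F (w i) →+* ℂ, (c i φ : ℝ) *
      D i ((σ : ℂ →+* ℂ).comp φ) = 0) (i₀ : I) (φ₀ : F (w i₀) →+* ℂ) :
    c i₀ φ₀ = 0 := by
  obtain ⟨L, _, _, j, hj⟩ := exists_galois F
  let X : V → Type := fun v => F v →+* L
  let res : ∀ u v, u ≤ v → X v → X u := fun u v h x => RingHom.comp x (inc u v h)
  obtain ⟨x₀, rfl⟩ := hj _ φ₀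
  have hag : ∀ {v w : V} (x : X v) (y : X w) (u : V),
      Ag X res x y u ↔ Agree inc (j.comp x) (j.comp y) u := by
    intro v w x y u
    exact (agree_iff j x y u).symm
  refine vanish (X := X) (res := res) (G := L ≃ₐ[ℚ] L) (bar := fun v => cbar)
    (fun v x => cbar_cbar x) (fun v x => cbar_ne x) (fun g v x => rfl) (fun g u v h x => rfl)
    (fun u v h x => cbar_res j _ _) hF.chain ?_ (fun v x y => MulAction.exists_smul_eq _ x y)
    ?_ ?_ w (fun i y => D i (j.comp y)) ?_ ?_ (fun i y => c i (j.comp y)) ?_ ?_ i₀ x₀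
  · intro u v w h h' x
    change (RingHom.comp x (inc v w h')).comp (inc u v h) = RingHom.comp x (inc u w (h.trans h'))
    rw [RingHom.comp_assoc, hF.comp u v w h h']
  · intro v w x y h1 h2
    obtain ⟨τ, ht1, ht2⟩ := hF.flip v w (j.comp x) (j.comp y) (fun u hu => h1 u ((hag x y u).2 hu))
      (fun u hu => h2 u ((hag x (cbar y) u).2 (by rw [comp_cbar]; exact hu)))
    obtain ⟨g, hg⟩ := exists_lift j τ
    refine ⟨g, jcomp_inj j ?_, jcomp_inj j ?_⟩
    · rw [← lifts_comp j hg]
      exact ht1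
    · rw [← lifts_comp j hg, comp_cbar]
      exact ht2
  · intro v w x y y' u₀ h1 h2
    obtain ⟨τ, ht1, ht2⟩ := hF.move v w (j.comp x) (j.comp y) (j.comp y') ⟨u₀, (hag x y u₀).1 h1⟩
      (fun u => by rw [← hag x y u, ← hag x y' u]; exact h2 u)
    obtain ⟨g, hg⟩ := exists_lift j τ
    refine ⟨g, jcomp_inj j ?_, jcomp_inj j ?_⟩
    · rw [← lifts_comp j hg]
      exact ht1
    · rw [← lifts_comp j hg]
      exact ht2
  · intro i y
    rw [comp_cbar, hD]
  · intro i₁ δ hδ i u hu1 hu2
    have h1 := Fintype.linearIndependent_iff.1 (hli i₁)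
      (fun x => δ x.1.1 x.1.2) (by
        funext φ
        obtain ⟨ψ, rfl⟩ := hj _ φ
        have h2 := hδ ψ
        rw [Finset.sum_apply]
        refine Eq.trans ?_ h2
        have h3 : ∀ i u, (∑ y : X (w i), if Ag X res ψ y u then D i (j.comp y) else 0) =
            ∑ y : F (w i) →+* ℂ, if Agree inc (j.comp ψ) y u then D i y else 0 := by
          intro i u
          refine Fintype.sum_equiv (embEquiv j (hj (w i))) _ _ fun y => ?_
          exact if_congr (hag ψ y u) rfl rfl
        simp only [h3]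
        let g : I × V → ℝ := fun x => (δ x.1 x.2 : ℝ) *
          ∑ y : F (w x.1) →+* ℂ, if Agree inc (j.comp ψ) y x.2 then D x.1 y else 0
        have h5 : ∑ x : {x : I × V // x.2 ≤ w i₁ ∧ x.2 ≤ w x.1}, g x.1 = ∑ x : I × V, g x := by
          rw [← Finset.sum_subtype (Finset.univ.filter fun x : I × V =>
            x.2 ≤ w i₁ ∧ x.2 ≤ w x.1) (fun x => by simp) g]
          refine Finset.sum_subset (Finset.filter_subset _ _) fun x _ hx => ?_
          have hx' : ¬ (x.2 ≤ w i₁ ∧ x.2 ≤ w x.1) := fun h => hx (by simp [h])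
          change (δ x.1 x.2 : ℝ) * (∑ y : F (w x.1) →+* ℂ,
            if Agree inc (j.comp ψ) y x.2 then D x.1 y else 0) = 0
          rw [Finset.sum_eq_zero, mul_zero]
          intro ψ _
          exact if_neg (fun ⟨h1, h2, _⟩ => hx' ⟨h1, h2⟩)
        rw [Fintype.sum_prod_type] at h5
        rw [← h5]
        refine Finset.sum_congr rfl fun x _ => ?_
        rw [Pi.smul_apply, Rat.smul_def]) ⟨(i, u), hu1, hu2⟩
    exact h1
  · intro i y
    rw [comp_cbar, hc]
  · intro g
    obtain ⟨σ, hσ⟩ := exists_lift' j g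
    rw [← hrel σ]
    refine Finset.sum_congr rfl fun i _ => ?_
    refine Fintype.sum_equiv (embEquiv j (hj (w i))) _ _ fun y => ?_
    change _ = (c i (j.comp y) : ℝ) * D i ((σ : ℂ →+* ℂ).comp (j.comp y))
    rw [lifts_comp j hσ]

end Pool.Agent.Run7.h301.TW
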