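import Mathlib
import Pool.Agent.Run7.h142.TF.ElemDefs
import Pool.Agent.Run7.h142.TF.Elem
import Pool.Agent.Run7.h142.TF.Scale
import Pool.Agent.TH170.GS.Rel
import Pool.Agent.Run7.h301.TW.Triv
import Pool.Agent.Run7.h301.TW.FunDefs

/-!
# The relations between the Frobenius eigenvalues of abelian varieties whose slope deviations have
independent norms in a forest of CM fields (helper301)

Adapted from Run7.h142.TF.Elem (helper142) and TH170.GS.Rel (helper170).
-/

set_option autoImplicit false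
set_option linter.unusedSectionVars false
set_option linter.unusedVariables false

namespace Pool.Agent.Run7.h301.TW

open NumberField Finset Module Pool.Agent.W495.TA Pool.Agent.TH117 Pool.Agent.TH170
  Pool.Agent.TH170.GS Pool.Agent.Run7.h142.JT Pool.Agent.Run7.h142.TF

variable {p : ℕ} [Fact p.Prime] {ν : PadicAlgCl p ≃+* ℂ} {V : Type} [Fintype V] [PartialOrder V]
  {F : V → Type} [∀ v, Field (F v)] [∀ v, NumberField (F v)] [∀ v, IsCMField (F v)]
  {inc : Inclusions F} {I : Type} [Fintype I] {w : I → V}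

/-- All relations between the Frobenius eigenvalues of an abelian variety whose slope deviations
are independent are elementary. -/
theorem elementary_of_forest (hF : FreeForest F inc) {D : ∀ i, (F (w i) →+* ℂ) → ℚ}
    (hD : ∀ i φ, D i (ComplexEmbedding.conjugate φ) = - D i φ)
    (hli : IndependentFunctions inc w D) {Y : RedAV p ν}
    (hY : OfSlopes (E := fun i => F (w i)) (I := fun _ : I => Unit) (fun i _ => D i) Y) :
    BL.HasElementaryRelations Y := by
  classical
  intro e he
  obtain ⟨b', hb', hY⟩ := hY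
  let b : I → ℝ := fun i => b' i ()
  have hb : ∀ i, b i ≠ 0 := fun i => hb' i ()
  let S : Y.X.I → Prop := fun l =>
    ∃ s : ℕ, 0 < s ∧ Y.π l ^ (2 * s) = ((p : (Y.X.factor l).E) ^ Y.a) ^ s
  have hY' : ∀ l, ¬ S l → ∃ (t : I) (θ : F (w t) →+* (Y.X.factor l).E) (x : F (w t)) (s : ℕ),
      0 < s ∧ θ x = Y.π l ^ s ∧ ∀ φ : F (w t) →+* ℂ,
        2 * (- Real.logb p ‖ν.symm (φ x)‖) - s * Y.a = s * b t * D t φ := by
    intro l hl
    obtain ⟨k, i, θ, x, s, h⟩ := (hY l).resolve_left hl
    exact ⟨k, θ, x, s, h⟩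
  choose t θ x s hs hθ hsl using hY'
  let X : Type := Σ t : I, (F (w t) →+* ℂ)
  let ε : X → ℝ := fun z => b z.1 * (D z.1 z.2 : ℝ)
  let inv : X → X := fun z => ⟨z.1, ComplexEmbedding.conjugate z.2⟩
  let mv : (ℂ ≃+* ℂ) → X → X := fun σ z => ⟨z.1, (σ : ℂ →+* ℂ).comp z.2⟩
  have hinv : ∀ z, inv (inv z) = z := by
    rintro ⟨i, φ⟩
    simp only [inv, conj_conj']
  have hε : ∀ z σ, ε (mv σ (inv z)) = - ε (mv σ z) := by
    rintro ⟨i, φ⟩ σ
    change b i * (D i ((σ : ℂ →+* ℂ).comp (ComplexEmbedding.conjugate φ)) : ℝ) =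
      - (b i * (D i ((σ : ℂ →+* ℂ).comp φ) : ℝ))
    rw [conj_move, hD]
    push_cast
    ring
  let G : BL.Emb Y → Option X := fun v =>
    if h : S v.1 then none else some ⟨t v.1 h, v.2.comp (θ v.1 h)⟩
  have hG1 : ∀ v, S v.1 → G v = none := fun v h => dif_pos h
  have hG2 : ∀ v (h : ¬ S v.1), G v = some ⟨t v.1 h, v.2.comp (θ v.1 h)⟩ := fun v h => dif_neg h
  have hGc : ∀ v z, G v = some z → G (conjE v) = some (inv z) := by
    intro v z hz
    by_cases h : S v.1
    · rw [hG1 v h] at hz
      exact absurd hz (by simp)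
    · rw [hG2 v h] at hz
      rw [← Option.some.inj hz, hG2 (conjE v) h]
      rfl
  -- the slopes
  have hdev0 : ∀ v, G v = none → ∀ σ, GS.dev Y σ v = 0 := by
    intro v hv σ
    have h : S v.1 := by
      by_contra h
      rw [hG2 v h] at hv
      exact absurd hv (by simp)
    have h1 := sum_dev_of_isRel (isRel_single v h) σ
    rw [sum_eq_single v] at h1
    · rwa [Pi.single_eq_same, Nat.cast_one, one_mul] at h1
    · intro u _ hu
      rw [Pi.single_eq_of_ne hu, Nat.cast_zero, zero_mul]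
    · intro h
      exact absurd (mem_univ _) h
  have hdev : ∀ v z, G v = some z → ∀ σ : ℂ ≃+* ℂ, GS.dev Y σ v = ε (mv σ z) := by
    intro v z hz σ
    by_cases h : S v.1
    · rw [hG1 v h] at hz
      exact absurd hz (by simp)
    · rw [hG2 v h] at hz
      rw [← Option.some.inj hz]
      have h1 := hsl v.1 h ((σ : ℂ →+* ℂ).comp (v.2.comp (θ v.1 h)))
      have h2 : ((σ : ℂ →+* ℂ).comp (v.2.comp (θ v.1 h))) (x v.1 h) =
          σ (BL.eig Y v) ^ s v.1 h := by
        change σ (v.2 (θ v.1 h (x v.1 h))) = _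
        rw [hθ, map_pow, map_pow]
        rfl
      rw [h2, map_pow, norm_pow, Real.logb_pow] at h1
      have hs0 : (s v.1 h : ℝ) ≠ 0 := Nat.cast_ne_zero.2 (hs v.1 h).ne'
      apply mul_left_cancel₀ hs0
      have h3 : (s v.1 h : ℝ) * GS.dev Y σ v =
          2 * (-(s v.1 h * Real.logb p ‖ν.symm (σ (BL.eig Y v))‖)) - s v.1 h * Y.a := by
        unfold GS.dev
        ring
      rw [h3, h1, mul_assoc]
  -- the antisymmetric exponents
  let c : ∀ i : I, (F (w i) →+* ℂ) → ℚ := fun i φ =>
    ∑ v : BL.Emb Y, (e v : ℚ) * ((if G v = some ⟨i, φ⟩ then 1 else 0) -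
      (if G v = some ⟨i, ComplexEmbedding.conjugate φ⟩ then 1 else 0))
  have hc : ∀ i φ, c i (ComplexEmbedding.conjugate φ) = - c i φ := by
    intro i φ
    simp only [c]
    rw [conj_conj', ← sum_neg_distrib]
    exact sum_congr rfl fun v _ => by ring
  have hrel' : ∀ σ : ℂ ≃+* ℂ, ∑ i, ∑ φ : F (w i) →+* ℂ, (c i φ : ℝ) *
      (fun i φ => b i * (D i φ : ℝ) : ∀ i, (F (w i) →+* ℂ) → ℝ) i
        ((σ : ℂ →+* ℂ).comp φ) = 0 := by
    intro σ
    have h1 : ∑ i, ∑ φ : F (w i) →+* ℂ, (c i φ : ℝ) *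
        (fun i φ => b i * (D i φ : ℝ) : ∀ i, (F (w i) →+* ℂ) → ℝ) i
          ((σ : ℂ →+* ℂ).comp φ) =
        ∑ z : X, ∑ v : BL.Emb Y, (e v : ℝ) * (((if G v = some z then 1 else 0) -
          (if G v = some (inv z) then 1 else 0)) * ε (mv σ z)) := by
      rw [Fintype.sum_sigma]
      refine sum_congr rfl fun i _ => sum_congr rfl fun φ _ => ?_
      simp only [c]
      push_cast
      rw [sum_mul]
      refine sum_congr rfl fun v _ => ?_
      simp only [ε, inv, mv]
      split_ifs <;> push_cast <;> ring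
    rw [h1, sum_comm]
    have h2 : ∀ v : BL.Emb Y, ∑ z : X, (e v : ℝ) * (((if G v = some z then 1 else 0) -
          (if G v = some (inv z) then 1 else 0)) * ε (mv σ z)) =
        2 * ((e v : ℝ) * GS.dev Y σ v) := by
      intro v
      rw [← mul_sum]
      rcases hv : G v with _ | z
      · rw [hdev0 v hv]
        simp
      · have h3 : ∀ z' : X, (((if some z = some z' then (1 : ℝ) else 0) -
            (if some z = some (inv z') then 1 else 0)) * ε (mv σ z')) =
            (if z = z' then ε (mv σ z') else 0) -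
              (if inv z = z' then ε (mv σ z') else 0) := by
          intro z'
          have h4 : (z = inv z') ↔ (inv z = z') :=
            ⟨fun h => by rw [h, hinv], fun h => by rw [← h, hinv]⟩
          simp only [Option.some_inj, h4]
          split_ifs <;> ring
        rw [sum_congr rfl fun z' _ => h3 z', sum_sub_distrib, sum_ite_eq univ z,
          sum_ite_eq univ (inv z), if_pos (mem_univ _), if_pos (mem_univ _), hdev v z hv σ, hε]
        ring
    rw [sum_congr rfl fun v _ => h2 v, ← mul_sum, sum_dev_of_isRel he, mul_zero]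
  have h0 : ∀ i φ, c i φ = 0 := by
    refine trivial_forest hF (fun i φ => b i * (D i φ : ℝ)) ?_ ?_ c hc hrel'
    · intro i φ
      change b i * (D i (ComplexEmbedding.conjugate φ) : ℝ) = - (b i * (D i φ : ℝ))
      rw [hD]
      push_cast
      ring
    · intro i₀
      have h1 := linInd_scaled (hli i₀) (c := fun x => b x.1.1) (fun x => hb _)
      convert h1 using 1
      funext x φ
      rw [Rat.cast_sum, Finset.mul_sum]
      refine Finset.sum_congr rfl fun ψ _ => ?_
      split_ifs
      · rfl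
      · rw [Rat.cast_zero, mul_zero]
  refine mem_of_symm _ G inv hinv ?_ ?_ ?_ ?_ (fun v => (e v : ℤ)) ?_
  · rintro ⟨i, φ⟩ h
    exact conj_ne φ (eq_of_heq (Sigma.mk.inj h).2)
  · intro v hv
    apply single_mem
    by_contra h
    have h1 := hG2 v h
    rw [hv] at h1
    exact absurd h1 (by simp)
  · intro v v' z hz hz'
    refine pair_mem v v' fun σ => ?_
    rw [hdev v z hz, hdev v' (inv z) hz', hε]
    ring
  · intro v z hz
    exact ⟨conjE v, hGc v z hz⟩
  · rintro ⟨i, φ⟩
    have h1 := h0 i φ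
    simp only [c, mul_sub, mul_ite, mul_one, mul_zero, sum_sub_distrib] at h1
    have h2 := sub_eq_zero.1 h1
    have h3 : ((∑ v, (if G v = some ⟨i, φ⟩ then (e v : ℤ) else 0) : ℤ) : ℚ) =
        ((∑ v, (if G v = some (inv ⟨i, φ⟩) then (e v : ℤ) else 0) : ℤ) : ℚ) := by
      push_cast
      exact h2
    exact_mod_cast h3

end Pool.Agent.Run7.h301.TW
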