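import Mathlib
import Pool.Agent.Run7.h301.TW.Dep
import Pool.Agent.Run7.h301.TW.FunDefs
import Pool.Agent.Run7.h301.TW.BoundDefs

/-!
# Signed weights with independent norms (helper301)
-/

set_option autoImplicit false
set_option linter.unusedSectionVars false

namespace Pool.Agent.Run7.h301.TW

open Finset Module NumberField Pool.Agent.H204R3.CM Pool.Agent.Run7.h142.JT

variable {V : Type} [Fintype V] [PartialOrder V] {F : V → Type}
  [∀ v, Field (F v)] [∀ v, NumberField (F v)] [∀ v, IsCMField (F v)]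
  {inc : Inclusions F} {r : ℕ} {w : Fin r → V}

theorem sgnF_conj' {K : Type} [Field K] {Φ : Set (K →+* ℂ)} (hΦ : IsCMType Φ) (φ : K →+* ℂ) :
    sgnF Φ (ComplexEmbedding.conjugate φ) = - sgnF Φ φ := by
  classical
  have h := hΦ φ
  unfold sgnF
  by_cases h1 : φ ∈ Φ
  · rw [if_pos h1, if_neg (h.1 h1)]
  · have h2 : ComplexEmbedding.conjugate φ ∈ Φ := by
      by_contra h3
      exact h1 (h.2 h3)
    rw [if_neg h1, if_pos h2]
    norm_num

theorem indepFun_of_good (hF : FreeForest F inc) {M : ∀ i, (F (w i) →+* ℂ) → ℤ}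
    (hM : ∀ i x, M i (ComplexEmbedding.conjugate x) = M i x) {Φ : ∀ i, Set (F (w i) →+* ℂ)}
    (hΦ : ∀ i, IsCMType (Φ i))
    (hgood : ∀ i u (h : u ≤ w i), tnorm (inc u (w i) h) (M i) (Φ i) ∉ prev inc M i u Φ) :
    IndependentFunctions inc w fun i φ => (M i φ : ℚ) * sgnF (Φ i) φ := by
  classical
  intro i₀
  have h1 := indep_of_good hF.chain hF.comp hM hΦ hgood i₀
  convert h1 using 1
  funext x φ
  unfold tnorm
  refine Finset.sum_congr rfl fun ψ _ => ?_
  refine if_congr ?_ rfl rfl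
  constructor
  · rintro ⟨_, _, h⟩
    exact h.symm
  · intro h
    exact ⟨x.2.1, x.2.2, h.symm⟩

/-- All but the exceptional proportion of the families of types have a property that follows from
the independence of the norms of the signed weights. -/
theorem ncard_forest_fun (hF : FreeForest F inc) {M : ∀ i, (F (w i) →+* ℂ) → ℤ}
    (hM0 : ∀ i φ, M i φ ≠ 0) (hM : ∀ i x, M i (ComplexEmbedding.conjugate x) = M i x)
    (Q : (∀ i, Set (F (w i) →+* ℂ)) → Prop)
    (hQ : ∀ Φ : ∀ i, Set (F (w i) →+* ℂ), (∀ i, IsCMType (Φ i)) →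
      IndependentFunctions inc w (fun i φ => (M i φ : ℚ) * sgnF (Φ i) φ) → Q Φ) :
    ({Φ : ∀ i, Set (F (w i) →+* ℂ) | (∀ i, IsCMType (Φ i)) ∧ ¬ Q Φ}.ncard : ℝ) ≤
      exceptional F w * ∏ i, 2 ^ half (F (w i)) :=
  ncard_bad hF.chain hF.comp hM0 Q fun Φ hΦ hgood => hQ Φ hΦ (indepFun_of_good hF hM hΦ hgood)

end Pool.Agent.Run7.h301.TW
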